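import Pool.Agent.Helper17.SL.Mask

set_option linter.unusedSimpArgs false

/-!
Sub-log-squared space for pushdown automata: gadgets for masked registers.
-/

namespace Pool.Agent.Helper17.SL

open Polynomial

variable {ι α F : Type} [Field F] {b : ℕ}

/-- `R_j += φ(R)`, where `φ` does not depend on the block `j`. -/
def shear (j : Fin 4) (φ : Reg F b → Blk F b) (hφ : ∀ r y, φ (Function.update r j y) = φ r) :
    Equiv.Perm (Reg F b) where
  toFun r := Function.update r j (r j + φ r)
  invFun r := Function.update r j (r j - φ r)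
  left_inv r := by simp [hφ]
  right_inv r := by simp [hφ]

theorem shear_mul (j : Fin 4) (φ ψ : Reg F b → Blk F b) (hφ : ∀ r y, φ (Function.update r j y) = φ r)
    (hψ : ∀ r y, ψ (Function.update r j y) = ψ r) :
    shear j ψ hψ * shear j φ hφ = shear j (fun r => φ r + ψ r) (fun r y => by rw [hφ, hψ]) := by
  ext r i x
  simp only [shear, Equiv.Perm.coe_mul, Function.comp_apply, Equiv.coe_fn_mk, hψ]
  by_cases hi : i = j
  · subst hi; simp [add_assoc]
  · simp [hi]

theorem shear_congr {j : Fin 4} {φ ψ : Reg F b → Blk F b} {hφ} {hψ} (h : ∀ r, φ r = ψ r) :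
    shear j φ hφ = shear j ψ hψ := by
  have : φ = ψ := funext h
  subst this
  rfl

theorem addB_eq_shear (j : Fin 4) (v : Blk F b) : addB j v = shear j (fun _ => v) (fun _ _ => rfl) :=
  rfl

/-- Adding `c(R) • w` to the block `j`, where `c` does not depend on the blocks `j`, `j'`. -/
theorem gadget_mul {j j' : Fin 4} (hj : j ≠ j') (c : Reg F b → F)
    (hc : ∀ r y, c (Function.update r j y) = c r) (hc' : ∀ r y, c (Function.update r j' y) = c r)
    {L : ℕ} {w : (ι → α) → Blk F b} (hw : CompB L w) [Nonempty ι] :
    ∃ P : List (ι × (α → Equiv.Perm (Reg F b))), P.length ≤ 2 * L + 2 ∧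
      ∀ I : ι → α, ev I P = shear j (fun r => c r • w I) (fun r y => by rw [hc]) := by
  obtain ⟨Q, h1, h2⟩ := hw j'
  let i0 : ι := Classical.arbitrary ι
  have hA : ∀ r y, (fun r : Reg F b => -(c r • r j')) (Function.update r j y) =
      (fun r : Reg F b => -(c r • r j')) r := by
    intro r y
    simp [hc, Function.update_of_ne hj.symm]
  have hB : ∀ r y, (fun r : Reg F b => (c r • r j')) (Function.update r j y) =
      (fun r : Reg F b => (c r • r j')) r := by
    intro r y
    simp [hc, Function.update_of_ne hj.symm]
  refine ⟨[(i0, fun _ => shear j (fun r : Reg F b => -(c r • r j')) hA)] ++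
    (Q ++ ([(i0, fun _ => shear j (fun r : Reg F b => (c r • r j')) hB)] ++ inv' Q)), ?_,
    fun I => ?_⟩
  · simp only [List.length_append, List.length_cons, List.length_nil, length_inv']
    omega
  · rw [ev_append, ev_append, ev_append, ev_inv', h2, addB_inv]
    simp only [ev, one_mul]
    ext r i x
    simp only [shear, addB, Equiv.Perm.coe_mul, Function.comp_apply, Equiv.coe_fn_mk]
    rcases eq_or_ne i j with rfl | hi
    · rcases eq_or_ne i j' with h | h
      · exact absurd h hj
      · simp [Function.update_of_ne h, Function.update_of_ne h.symm, hc, hc']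
    · rcases eq_or_ne i j' with rfl | h
      · simp [Function.update_of_ne hi, hc, hc']
      · simp [Function.update_of_ne hi, Function.update_of_ne h]

/-- Branching on a variable. -/
theorem CompB.branch [Fintype α] [DecidableEq α] (i : ι) {L : ℕ} {v : α → (ι → α) → Blk F b}
    (h : ∀ a, CompB L (v a)) :
    CompB (Fintype.card α * (2 * L + 2)) (fun I => v (I i) I) := by
  have key : ∀ a, CompB (2 * L + 2) (fun I : ι → α => if I i = a then v a I else 0) := by
    intro a j
    have hj : j ≠ j + 1 := by
      intro h
      have : (j + 1 - j : Fin 4) = 0 := by rw [← h]; simp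
      simp at this
    obtain ⟨Q, h1, h2⟩ := h a (j + 1)
    have hA : ∀ r y, (fun r : Reg F b => -(r (j + 1))) (Function.update r j y) =
        (fun r : Reg F b => -(r (j + 1))) r := by
      intro r y
      simp [Function.update_of_ne hj.symm]
    have hB : ∀ r y, (fun r : Reg F b => (r (j + 1))) (Function.update r j y) =
        (fun r : Reg F b => (r (j + 1))) r := by
      intro r y
      simp [Function.update_of_ne hj.symm]
    refine ⟨[(i, fun a' => if a' = a then shear j (fun r : Reg F b => -(r (j + 1))) hA else 1)] ++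
      (Q ++ ([(i, fun a' => if a' = a then shear j (fun r : Reg F b => (r (j + 1))) hB else 1)] ++
        inv' Q)), ?_, fun I => ?_⟩
    · simp only [List.length_append, List.length_cons, List.length_nil, length_inv']
      omega
    · rw [ev_append, ev_append, ev_append, ev_inv', h2, addB_inv]
      simp only [ev, one_mul]
      by_cases hI : I i = a
      · simp only [hI, if_true]
        ext r k x
        simp only [shear, addB, Equiv.Perm.coe_mul, Function.comp_apply, Equiv.coe_fn_mk]
        rcases eq_or_ne k j with rfl | hk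
        · simp [Function.update_of_ne hj, Function.update_of_ne hj.symm]
        · rcases eq_or_ne k (j + 1) with rfl | h
          · simp [Function.update_of_ne hk]
          · simp [Function.update_of_ne hk, Function.update_of_ne h]
      · simp only [hI, if_false, mul_one]
        rw [addB_add]
        simp [addB_zero]
  have h2 := CompB.sum (Finset.univ : Finset α) (fun a _ => key a)
  rw [Finset.card_univ] at h2
  intro j
  obtain ⟨P, h3, h4⟩ := h2 j
  refine ⟨P, h3, fun I => ?_⟩
  rw [h4]
  congr 1
  simp

/-- The indicator polynomial of `a`. -/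
def dl {W : Type} [Code b W] (a : W) (x : Blk F b) : F :=
  ∏ i, if Code.emb (b := b) a i then x i else 1 - x i

theorem dl_enc {W : Type} [Code b W] [DecidableEq W] (a c : W) :
    dl (F := F) (b := b) a (enc F c) = if a = c then 1 else 0 := by
  classical
  split_ifs with h
  · subst h
    unfold dl enc
    apply Finset.prod_eq_one
    intro i _
    split_ifs <;> simp
  · have : ∃ i, Code.emb (b := b) a i ≠ Code.emb (b := b) c i := by
      by_contra hcon
      push Not at hcon
      exact h ((Code.emb (b := b)).injective (funext hcon))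
    obtain ⟨i, hi⟩ := this
    unfold dl enc
    apply Finset.prod_eq_zero (Finset.mem_univ i)
    cases h1 : Code.emb (b := b) a i <;> cases h2 : Code.emb (b := b) c i <;> simp_all

/-! ### sums over the nonzero field elements -/

theorem sum_eval_erase [Fintype F] [DecidableEq F] (P : F[X])
    (hP : P.natDegree < Fintype.card F - 1) :
    ∑ x ∈ Finset.univ.erase (0 : F), (-P.eval x) = P.eval 0 := by
  have h : ∑ x : F, P.eval x = 0 := by
    simp_rw [Polynomial.eval_eq_sum_range]
    rw [Finset.sum_comm]
    apply Finset.sum_eq_zero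
    intro i hi
    rw [← Finset.mul_sum]
    rw [FiniteField.sum_pow_lt_card_sub_one, mul_zero]
    have := Finset.mem_range.mp hi
    omega
  rw [← Finset.add_sum_erase _ _ (Finset.mem_univ (0 : F))] at h
  rw [Finset.sum_neg_distrib]
  exact (eq_neg_of_add_eq_zero_left h).symm

/-- The indicator polynomial along a line. -/
noncomputable def pl {W : Type} [Code b W] (a : W) (x v : Blk F b) : F[X] :=
  ∏ i, if Code.emb (b := b) a i then C (v i) + X * C (x i) else 1 - (C (v i) + X * C (x i))

theorem pl_eval {W : Type} [Code b W] (a : W) (x v : Blk F b) (ω : F) :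
    (pl a x v).eval ω = dl a (fun i => ω * x i + v i) := by
  unfold pl dl
  rw [eval_prod]
  apply Finset.prod_congr rfl
  intro i _
  split_ifs <;> simp <;> ring

theorem pl_natDegree {W : Type} [Code b W] (a : W) (x v : Blk F b) :
    (pl a x v).natDegree ≤ b := by
  unfold pl
  refine (natDegree_prod_le _ _).trans ?_
  have h1 : ∀ i : Fin b, (C (v i) + X * C (x i)).natDegree ≤ 1 := by
    intro i
    refine (natDegree_add_le _ _).trans ?_
    simp only [natDegree_C, zero_le, max_eq_right]
    refine natDegree_mul_le.trans ?_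
    simp [natDegree_X_le]
  calc ∑ i : Fin b, (if Code.emb (b := b) a i then C (v i) + X * C (x i)
        else 1 - (C (v i) + X * C (x i))).natDegree ≤ ∑ _i : Fin b, 1 := by
        apply Finset.sum_le_sum
        intro i _
        split_ifs
        · exact h1 i
        · refine (natDegree_sub_le _ _).trans (max_le (by simp) (h1 i))
    _ = b := by simp

theorem sum_dl [Fintype F] [DecidableEq F] {A B : Type} [Fintype A] [Fintype B] [DecidableEq A]
    [DecidableEq B] [Code b A] [Code b B] (hF : 2 * b < Fintype.card F - 1) (x y : Blk F b)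
    (u : A) (v : B) (w : A → B → Blk F b) :
    ∑ ω ∈ Finset.univ.erase (0 : F), ∑ p : A × B,
      (-(dl p.1 (fun i => ω * x i + enc F u i) * dl p.2 (fun i => ω * y i + enc F v i)) : F) •
        w p.1 p.2 = w u v := by
  funext i
  let G : F[X] := ∑ p : A × B, pl p.1 x (enc F u) * pl p.2 y (enc F v) * C (w p.1 p.2 i)
  have hG : G.natDegree < Fintype.card F - 1 := by
    refine lt_of_le_of_lt ?_ hF
    refine natDegree_sum_le_of_forall_le _ _ (fun p _ => ?_)
    refine (natDegree_mul_C_le _ _).trans ?_
    refine natDegree_mul_le.trans ?_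
    have h1 := pl_natDegree p.1 x (enc F u)
    have h2 := pl_natDegree p.2 y (enc F v)
    omega
  have h := sum_eval_erase G hG
  have h0 : G.eval 0 = w u v i := by
    simp only [G, eval_finsetSum, eval_mul, pl_eval, eval_C, zero_mul, zero_add]
    have h1 : ∀ p : A × B, dl (b := b) p.1 (fun i => enc F u i) *
        dl (b := b) p.2 (fun i => enc F v i) * w p.1 p.2 i = if p = (u, v) then w u v i else 0 := by
      intro p
      have e1 := dl_enc (F := F) (b := b) p.1 u
      have e2 := dl_enc (F := F) (b := b) p.2 v
      rw [show (fun i => enc F u i) = (enc F u : Blk F b) from rfl,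
        show (fun i => enc F v i) = (enc F v : Blk F b) from rfl, e1, e2]
      by_cases h : p = (u, v)
      · subst h; simp
      · have : ¬ (p.1 = u ∧ p.2 = v) := fun h' => h (Prod.ext h'.1 h'.2)
        by_cases h1 : p.1 = u
        · have h2 : p.2 ≠ v := fun h2 => this ⟨h1, h2⟩
          simp [h2, h]
        · simp [h1, h]
    rw [Finset.sum_congr rfl (fun p _ => h1 p)]
    simp
  rw [← h0, ← h, Finset.sum_apply]
  apply Finset.sum_congr rfl
  intro ω _
  simp only [G, eval_finsetSum, eval_mul, pl_eval, eval_C, Finset.sum_apply, Pi.smul_apply,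
    smul_eq_mul]
  rw [← Finset.sum_neg_distrib]
  apply Finset.sum_congr rfl
  intro p _
  ring

/-! ### the main gadget -/

/-- `R_j += φ(R)` is computed with `L` instructions. -/
def Sh (j : Fin 4) (L : ℕ) (φ : (ι → α) → Reg F b → Blk F b) : Prop :=
  ∃ P : List (ι × (α → Equiv.Perm (Reg F b))), P.length ≤ L ∧
    ∀ I r, ev I P r = Function.update r j (r j + φ I r)

theorem Sh.add {j : Fin 4} {L L' : ℕ} {φ ψ : (ι → α) → Reg F b → Blk F b} (h : Sh j L φ)
    (h' : Sh j L' ψ) (hψ : ∀ I r y, ψ I (Function.update r j y) = ψ I r) :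
    Sh j (L + L') (fun I r => φ I r + ψ I r) := by
  obtain ⟨P, h1, h2⟩ := h
  obtain ⟨Q, h3, h4⟩ := h'
  refine ⟨P ++ Q, by simp; omega, fun I r => ?_⟩
  rw [ev_append, Equiv.Perm.mul_apply, h2, h4, hψ]
  simp [add_assoc]

theorem Sh.sum {j : Fin 4} {L : ℕ} {κ : Type} (s : Finset κ)
    {φ : κ → (ι → α) → Reg F b → Blk F b} (h : ∀ k ∈ s, Sh j L (φ k))
    (hφ : ∀ k ∈ s, ∀ I r y, φ k I (Function.update r j y) = φ k I r) :
    Sh j (s.card * L) (fun I r => ∑ k ∈ s, φ k I r) := by
  classical
  induction s using Finset.induction_on with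
  | empty => exact ⟨[], by simp, fun I r => by simp [ev]⟩
  | insert k s hk ih =>
    have h1 := h k (by simp)
    have h2 := ih (fun k' hk' => h k' (by simp [hk'])) (fun k' hk' => hφ k' (by simp [hk']))
    have h3 := h1.add h2 (fun I r y => Finset.sum_congr rfl
      (fun k' hk' => hφ k' (by simp [hk']) I r y))
    obtain ⟨P, h4, h5⟩ := h3
    refine ⟨P, ?_, fun I r => ?_⟩
    · rw [Finset.card_insert_of_notMem hk, add_mul, one_mul, add_comm]
      exact h4
    · rw [h5]
      simp only [Finset.sum_insert hk]

/-- Conjugation. -/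
theorem Sh.conj {j : Fin 4} {L L' : ℕ} {φ : (ι → α) → Reg F b → Blk F b} (h : Sh j L φ)
    (Q : List (ι × (α → Equiv.Perm (Reg F b)))) (hQ : Q.length ≤ L')
    (U : (ι → α) → Reg F b → Reg F b) (hU : ∀ I r, ev I Q r = U I r)
    (hj : ∀ I r y, U I (Function.update r j y) = Function.update (U I r) j y)
    (hj' : ∀ I r, U I r j = r j) :
    Sh j (L + 2 * L') (fun I r => φ I (U I r)) := by
  obtain ⟨P, h1, h2⟩ := h
  refine ⟨Q ++ (P ++ inv' Q), ?_, fun I r => ?_⟩
  · simp only [List.length_append, length_inv']
    omega
  · rw [ev_append, ev_append, ev_inv', Equiv.Perm.mul_apply, Equiv.Perm.mul_apply, hU, h2, hj',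
      ← hj, ← hU, ← Equiv.Perm.mul_apply, inv_mul_cancel, Equiv.Perm.one_apply]

theorem CompB.gadget [Fintype F] [DecidableEq F] {A B : Type} [Fintype A] [Fintype B]
    [DecidableEq A] [DecidableEq B] [Code b A] [Code b B] [Nonempty ι]
    (hF : 2 * b < Fintype.card F - 1) {L1 L2 L3 : ℕ} {u1 : (ι → α) → A} {u2 : (ι → α) → B}
    {w : A → B → (ι → α) → Blk F b} (h1 : CompV F b L1 u1) (h2 : CompV F b L2 u2)
    (h3 : ∀ a c, CompB L3 (w a c)) :
    CompB (Fintype.card F *
      (2 * L1 + 2 * L2 + Fintype.card A * Fintype.card B * (2 * L3 + 2) + 2))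
      (fun I => w (u1 I) (u2 I) I) := by
  classical
  intro j
  have n1 : j + 1 ≠ j := by fin_cases j <;> decide
  have n2 : j + 2 ≠ j := by fin_cases j <;> decide
  have n3 : j + 3 ≠ j := by fin_cases j <;> decide
  have n12 : j + 2 ≠ j + 1 := by fin_cases j <;> decide
  have n13 : j + 3 ≠ j + 1 := by fin_cases j <;> decide
  have n23 : j + 3 ≠ j + 2 := by fin_cases j <;> decide
  obtain ⟨Q1, l1, e1⟩ := h1 (j + 1)
  obtain ⟨Q2, l2, e2⟩ := h2 (j + 2)
  -- the innermost sum
  have hT : Sh j (Fintype.card A * Fintype.card B * (2 * L3 + 2))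
      (fun I r => ∑ p : A × B, (-(dl p.1 (r (j + 1)) * dl p.2 (r (j + 2))) : F) •
        w p.1 p.2 I) := by
    have := Sh.sum (j := j) (L := 2 * L3 + 2) (Finset.univ : Finset (A × B))
      (φ := fun p I r => (-(dl p.1 (r (j + 1)) * dl p.2 (r (j + 2))) : F) • w p.1 p.2 I)
      (fun p _ => by
        obtain ⟨P, hP1, hP2⟩ := gadget_mul (j := j) (j' := j + 3) n3.symm
          (fun r : Reg F b => -(dl p.1 (r (j + 1)) * dl p.2 (r (j + 2))))
          (fun r y => by simp [Function.update_of_ne n1, Function.update_of_ne n2])
          (fun r y => by simp [Function.update_of_ne n13.symm, Function.update_of_ne n23.symm])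
          (h3 p.1 p.2)
        exact ⟨P, hP1, fun I r => by rw [hP2, shear, Equiv.coe_fn_mk]⟩)
      (fun p _ I r y => by simp [Function.update_of_ne n1, Function.update_of_ne n2])
    rw [Finset.card_univ, Fintype.card_prod] at this
    exact this
  -- conjugation
  have hω : ∀ ω ∈ Finset.univ.erase (0 : F), Sh j
      (Fintype.card A * Fintype.card B * (2 * L3 + 2) + 2 * (L1 + L2 + 1))
      (fun I r => ∑ p : A × B, (-(dl p.1 (fun i => ω * r (j + 1) i + enc F (u1 I) i) *
        dl p.2 (fun i => ω * r (j + 2) i + enc F (u2 I) i)) : F) • w p.1 p.2 I) := by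
    intro ω hω
    have hω0 : ω ≠ 0 := (Finset.mem_erase.mp hω).1
    let S : Equiv.Perm (Reg F b) :=
      { toFun := fun r k => if k = j + 1 ∨ k = j + 2 then ω • r k else r k
        invFun := fun r k => if k = j + 1 ∨ k = j + 2 then ω⁻¹ • r k else r k
        left_inv := fun r => by
          funext k
          by_cases hk : k = j + 1 ∨ k = j + 2
          · simp [hk, smul_smul, hω0]
          · simp [hk]
        right_inv := fun r => by
          funext k
          by_cases hk : k = j + 1 ∨ k = j + 2
          · simp [hk, smul_smul, hω0]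
          · simp [hk] }
    let i0 : ι := Classical.arbitrary ι
    have hc := hT.conj ([(i0, fun _ => S)] ++ (Q1 ++ Q2)) (L' := L1 + L2 + 1)
      (by simp only [List.length_append, List.length_cons, List.length_nil]; omega)
      (fun I r k => if k = j + 1 then ω • r k + enc F (u1 I) else if k = j + 2 then
        ω • r k + enc F (u2 I) else r k)
      (fun I r => by
        rw [ev_append, ev_append, e1, e2]
        simp only [ev, one_mul, Equiv.Perm.mul_apply]
        funext k
        by_cases hk1 : k = j + 1
        · subst hk1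
          simp [addB, S, n12.symm]
        · by_cases hk2 : k = j + 2
          · subst hk2
            simp [addB, S, n12]
          · simp [addB, S, hk1, hk2])
      (fun I r y => by
        funext k
        by_cases hk : k = j
        · subst hk
          simp [n1.symm, n2.symm]
        · simp [Function.update_of_ne hk])
      (fun I r => by simp [n1.symm, n2.symm])
    obtain ⟨P, hP1, hP2⟩ := hc
    refine ⟨P, hP1, fun I r => ?_⟩
    rw [hP2]
    congr 2
    apply Finset.sum_congr rfl
    intro p _
    simp only [if_true, n12, if_false]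
    rfl
  have htot := Sh.sum (j := j) (Finset.univ.erase (0 : F)) hω (fun ω _ I r y => by
    simp [Function.update_of_ne n1, Function.update_of_ne n2])
  obtain ⟨P, hP1, hP2⟩ := htot
  refine ⟨P, hP1.trans ?_, fun I => ?_⟩
  · apply Nat.mul_le_mul
    · rw [Finset.card_erase_of_mem (Finset.mem_univ _), Finset.card_univ]
      omega
    · omega
  · ext1 r
    rw [hP2]
    have hsum := sum_dl (F := F) (b := b) hF (r (j + 1)) (r (j + 2)) (u1 I) (u2 I)
      (fun a c => w a c I)
    simp only [hsum]
    rfl

end Pool.Agent.Helper17.SL
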