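import Pool.Agent.Helper17.SL.Defs
import Pool.Agent.Helper17.SL.Gadget

/-!
Sub-log-squared space for pushdown automata: from programs over registers to branching programs.
-/

namespace Pool.Agent.Helper17.SL

theorem ev_take_succ {ι α R : Type} (I : ι → α) (P : List (ι × (α → Equiv.Perm R))) (j : ℕ)
    (hj : j < P.length) (r : R) :
    ev I (P.take (j + 1)) r = (P.get ⟨j, hj⟩).2 (I (P.get ⟨j, hj⟩).1) (ev I (P.take j) r) := by
  rw [List.take_succ_eq_append_getElem hj, ev_append]
  simp [ev]

theorem exists_BP {α R : Type} [Fintype R] {n : ℕ} (P : List (Fin n × (α → Equiv.Perm R)))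
    (m0 : R) (out : R → Bool) :
    ∃ B : BP α n ((P.length + 1) * Fintype.card R), ∀ I : Fin n → α,
      B.Outputs I (out (ev I P m0)) := by
  classical
  have hc : Fintype.card (Fin (P.length + 1) × R) = (P.length + 1) * Fintype.card R := by simp
  let e : (Fin (P.length + 1) × R) ≃ Fin ((P.length + 1) * Fintype.card R) :=
    Fintype.equivFinOfCardEq hc
  let B : BP α n ((P.length + 1) * Fintype.card R) :=
    { start := e (0, m0)
      act := fun q => if h : ((e.symm q).1 : ℕ) < P.length then
          Sum.inl ((P.get ⟨(e.symm q).1, h⟩).1,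
            fun a => e (⟨(e.symm q).1 + 1, by omega⟩, (P.get ⟨(e.symm q).1, h⟩).2 a (e.symm q).2))
        else Sum.inr (out (e.symm q).2) }
  refine ⟨B, fun I => ⟨P.length, ?_⟩⟩
  have key : ∀ (j : ℕ) (hj : j ≤ P.length), (B.step I)^[j] B.start =
      e (⟨j, by omega⟩, ev I (P.take j) m0) := by
    intro j
    induction j with
    | zero => intro _; simp [B, ev]
    | succ j ih =>
      intro hj
      rw [Function.iterate_succ_apply', ih (by omega)]
      have hlt : j < P.length := by omega
      have hact : B.act (e (⟨j, by omega⟩, ev I (P.take j) m0)) =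
          Sum.inl ((P.get ⟨j, hlt⟩).1,
            fun a => e (⟨j + 1, by omega⟩, (P.get ⟨j, hlt⟩).2 a (ev I (P.take j) m0))) := by
        simp [B, hlt]
      unfold BP.step
      rw [hact]
      simp only [Sum.elim_inl]
      rw [ev_take_succ I P j hlt]
  rw [key P.length le_rfl]
  simp [B]

/-- Values which depend on `k` letters. -/
theorem compB_view {α F : Type} [Field F] [Fintype α] [DecidableEq α] {b n : ℕ}
    [Nonempty (Fin n)] (k : ℕ) (p : Fin k → ℕ) (φ : (Fin k → Option α) → Blk F b) :
    CompB ((4 * Fintype.card α + 1) ^ k)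
      (fun I : Fin n → α => φ (fun j => (List.ofFn I)[p j]?)) := by
  induction k with
  | zero =>
    have : (fun I : Fin n → α => φ (fun j : Fin 0 => (List.ofFn I)[p j]?)) =
        fun _ => φ (fun j => j.elim0) := by
      funext I
      congr 1
      funext j
      exact j.elim0
    rw [this, pow_zero]
    exact CompB.const _
  | succ k ih =>
    have hL : 1 ≤ (4 * Fintype.card α + 1) ^ k := Nat.one_le_pow _ _ (by omega)
    have e : ∀ I : Fin n → α, (fun j : Fin (k + 1) => (List.ofFn I)[p j]?) =
        Fin.cons (List.ofFn I)[p 0]? (fun j : Fin k => (List.ofFn I)[p j.succ]?) := by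
      intro I
      funext j
      refine Fin.cases ?_ (fun j => ?_) j
      · simp
      · simp
    by_cases h : p 0 < n
    · have h1 := CompB.branch (F := F) (b := b) (α := α) (⟨p 0, h⟩ : Fin n)
        (v := fun a I => φ (Fin.cons (some a) (fun j : Fin k => (List.ofFn I)[p j.succ]?)))
        (fun a => ih (fun j => p j.succ) (fun x => φ (Fin.cons (some a) x)))
      have h2 : (fun I : Fin n → α => φ (fun j => (List.ofFn I)[p j]?)) =
          fun I => φ (Fin.cons (some (I ⟨p 0, h⟩))
            (fun j : Fin k => (List.ofFn I)[p j.succ]?)) := by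
        funext I
        rw [e I]
        congr 2
        rw [List.getElem?_ofFn, dif_pos h]
      rw [h2]
      refine CompB.mono h1 ?_
      calc Fintype.card α * (2 * (4 * Fintype.card α + 1) ^ k + 2)
          ≤ Fintype.card α * (4 * (4 * Fintype.card α + 1) ^ k) :=
            Nat.mul_le_mul_left _ (by omega)
        _ ≤ (4 * Fintype.card α + 1) ^ (k + 1) := by rw [pow_succ]; nlinarith
    · have h2 : (fun I : Fin n → α => φ (fun j => (List.ofFn I)[p j]?)) =
          fun I => φ (Fin.cons none (fun j : Fin k => (List.ofFn I)[p j.succ]?)) := by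
        funext I
        rw [e I]
        congr 2
        rw [List.getElem?_ofFn, dif_neg h]
      rw [h2]
      refine CompB.mono (ih (fun j => p j.succ) (fun x => φ (Fin.cons none x))) ?_
      exact Nat.pow_le_pow_right (by omega) (by omega)

end Pool.Agent.Helper17.SL
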