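import Pool.Agent.Helper17.SL.Main

/-!
Sub-log-squared space for pushdown automata: counting values, and the theorem given the choice of
the parameters.
-/

namespace Pool.Agent.Helper17.SL

set_option linter.style.haveILetI false

/-- The choice of the parameters. -/
def Params : Prop := ∀ κ : ℕ, ∃ C : ℝ, ∀ T : ℕ, 16 ≤ T → ∃ M D b f : ℕ, 0 < M ∧ 0 < D ∧
    κ * T ≤ M ^ D ∧ (κ * M ^ D) ^ κ ≤ 2 ^ b ∧ f.Prime ∧ 2 * b < f - 1 ∧
    (((((128 * (4 * M + 6) * f ^ 3) ^ (4 * M + 6) * (2 ^ b) ^ 2) ^ D * κ + 1) *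
      (f ^ b) ^ 4 : ℕ) : ℝ) ≤ Real.exp (C * Real.log T ^ 2 / Real.log (Real.log T))

theorem card_VT {Q Γ : Type} [Fintype Q] [Fintype Γ] {k n T R N : ℕ} [Fintype (Pend Γ R)] :
    Fintype.card (VT Q Γ k n T R N) = (N + 1) * ((N + 1) * ((T + 1) * (Fintype.card Q *
      ((n + 2) ^ k * Fintype.card (Pend Γ R))) * (Fintype.card Γ + 1))) := by
  simp only [VT, Val, Ctl, Fintype.card_prod, Fintype.card_fin, Fintype.card_option,
    Fintype.card_fun]

theorem card_VT_le {Q Γ : Type} [Fintype Q] [Fintype Γ] {k n T R N : ℕ} [Fintype (Pend Γ R)]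
    (hn : n ≤ N) (hT : T ≤ N) (hN : 2 ≤ N) :
    Fintype.card (VT Q Γ k n T R N) ≤
      (Fintype.card Q * Fintype.card (Pend Γ R) * (Fintype.card Γ + 1)) * (2 * N) ^ (k + 3) := by
  rw [card_VT]
  have h1 : N + 1 ≤ 2 * N := by omega
  have h2 : T + 1 ≤ 2 * N := by omega
  have h3 : (n + 2) ^ k ≤ (2 * N) ^ k := Nat.pow_le_pow_left (by omega) k
  calc (N + 1) * ((N + 1) * ((T + 1) * (Fintype.card Q *
      ((n + 2) ^ k * Fintype.card (Pend Γ R))) * (Fintype.card Γ + 1)))
      ≤ (2 * N) * ((2 * N) * ((2 * N) * (Fintype.card Q *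
      ((2 * N) ^ k * Fintype.card (Pend Γ R))) * (Fintype.card Γ + 1))) := by gcongr
    _ = _ := by ring

theorem cell_le {V : Type} [Fintype V] [DecidableEq V] {M N c e : ℕ}
    (hV : Fintype.card V ≤ c * (2 * N) ^ e) (hc : 0 < c) (hMN : M ≤ N) (hN : 2 ≤ N) :
    Fintype.card (Cell V (4 * M + 6)) ≤ ((400 * c) * N) ^ (5 * e + 6) ∧
    Fintype.card (Res V) ≤ ((400 * c) * N) ^ (5 * e + 6) := by
  have hpos : 0 < (2 * N) ^ e := pow_pos (by omega) _
  set v := c * (2 * N) ^ e with hv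
  have hv1 : 1 ≤ v := Nat.mul_pos hc hpos
  have hv2 : v ≤ (2 * c * N) ^ (e + 1) := by
    have h1 : c ≤ 2 * c * N := by nlinarith
    have h2 : (2 * N) ^ e ≤ (2 * c * N) ^ e := Nat.pow_le_pow_left (by nlinarith) e
    calc v ≤ (2 * c * N) * (2 * c * N) ^ e := Nat.mul_le_mul h1 h2
      _ = _ := by rw [pow_succ, mul_comm]
  have hres : Fintype.card (Res V) ≤ 3 * v ^ 2 := by
    rw [card_res]
    nlinarith
  have hbase : 1 ≤ 2 * c * N := Nat.mul_pos (by omega) (by omega)
  have hfin : 264 * v ^ 5 * N ≤ ((400 * c) * N) ^ (5 * e + 6) := by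
    calc 264 * v ^ 5 * N ≤ 264 * ((2 * c * N) ^ (e + 1)) ^ 5 * (2 * c * N) := by
          gcongr
          nlinarith
      _ = 264 * (2 * c * N) ^ (5 * e + 6) := by
          rw [← pow_mul, show (e + 1) * 5 = 5 * e + 5 from by ring]
          rw [mul_assoc, ← pow_succ]
      _ ≤ 200 ^ (5 * e + 6) * (2 * c * N) ^ (5 * e + 6) := by
          apply Nat.mul_le_mul_right
          calc 264 ≤ 200 ^ 6 := by norm_num
            _ ≤ 200 ^ (5 * e + 6) := Nat.pow_le_pow_right (by norm_num) (by omega)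
      _ = _ := by rw [← mul_pow]; congr 1; ring
  constructor
  · refine le_trans ?_ hfin
    rw [card_cell]
    have h0 : Fintype.card V + Fintype.card V * Fintype.card V + 1 ≤ 3 * v ^ 2 := by nlinarith
    calc 2 * (Fintype.card V * ((Fintype.card V + 1) *
        (Fintype.card V + Fintype.card V * Fintype.card V + 1))) *
          ((4 * M + 6 + 1) * (Fintype.card V + 1))
        ≤ 2 * (v * ((2 * v) * (3 * v ^ 2))) * ((11 * N) * (2 * v)) := by
          gcongr
          · omega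
          · omega
          · omega
      _ = 264 * v ^ 5 * N := by ring
  · refine hres.trans (le_trans ?_ hfin)
    calc 3 * v ^ 2 ≤ 264 * v ^ 5 := by
          apply Nat.mul_le_mul (by norm_num)
          exact Nat.pow_le_pow_right hv1 (by omega)
      _ ≤ 264 * v ^ 5 * N := Nat.le_mul_of_pos_right _ (by omega)

theorem main_of_params (hP : Params) {α Q Γ : Type} [Fintype α] [Fintype Q] [Fintype Γ] {k : ℕ}
    (δ : PDTrans α Q Γ k) (q₀ : Q) (F : Set Q) :
    ∃ C : ℝ, ∀ n T : ℕ, n ≤ T → 16 ≤ T → ∃ (S : ℕ) (B : BP α n S),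
      (S : ℝ) ≤ Real.exp (C * Real.log T ^ 2 / Real.log (Real.log T)) ∧
      ∀ I : Fin n → α, (AcceptsIn δ q₀ F T (List.ofFn I) → B.Outputs I true) ∧
        (¬ AcceptsIn δ q₀ F T (List.ofFn I) → B.Outputs I false) := by
  classical
  -- the longest word pushed
  obtain ⟨R, hR⟩ : ∃ R, ∀ q v X, (δ q v X).2.2.length ≤ R := by
    refine ⟨Finset.univ.sup (fun x : Q × (Fin k → Bool × Option α) × Option Γ =>
      (δ x.1 x.2.1 x.2.2).2.2.length), fun q v X => ?_⟩
    exact Finset.le_sup (f := fun x : Q × (Fin k → Bool × Option α) × Option Γ =>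
      (δ x.1 x.2.1 x.2.2).2.2.length) (Finset.mem_univ (q, v, X))
  haveI : Finite (Pend Γ R) := (List.finite_length_le Γ R).to_subtype
  letI : Fintype (Pend Γ R) := Fintype.ofFinite _
  haveI : Nonempty (Pend Γ R) := ⟨⟨[], Nat.zero_le _⟩⟩
  haveI : Nonempty Q := ⟨q₀⟩
  set c := Fintype.card Q * Fintype.card (Pend Γ R) * (Fintype.card Γ + 1) with hc
  have hc0 : 0 < c := Nat.mul_pos (Nat.mul_pos Fintype.card_pos Fintype.card_pos) (by omega)
  set κ := 400 * c + (5 * (k + 3) + 6) + (R + 1) + ((4 * Fintype.card α + 1) ^ k + 1) with hκ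
  obtain ⟨C, hC⟩ := hP κ
  refine ⟨max C 0, fun n T hnT hT => ?_⟩
  have hlog : 0 ≤ Real.log T ^ 2 / Real.log (Real.log T) := by
    apply div_nonneg (sq_nonneg _)
    apply Real.log_nonneg
    have h1 : (16 : ℝ) ≤ T := by exact_mod_cast hT
    rw [Real.le_log_iff_exp_le (by linarith)]
    have := Real.exp_one_lt_d9
    linarith
  have hexp : Real.exp (C * Real.log T ^ 2 / Real.log (Real.log T)) ≤
      Real.exp (max C 0 * Real.log T ^ 2 / Real.log (Real.log T)) := by
    apply Real.exp_le_exp.mpr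
    rw [mul_div_assoc, mul_div_assoc]
    exact mul_le_mul_of_nonneg_right (le_max_left _ _) hlog
  rcases Nat.eq_zero_or_pos n with hn | hn
  · subst hn
    refine ⟨1, ⟨0, fun _ => Sum.inr (decide (AcceptsIn δ q₀ F T []))⟩, ?_, fun I => ?_⟩
    · rw [Nat.cast_one]
      apply Real.one_le_exp
      rw [mul_div_assoc]
      exact mul_nonneg (le_max_right _ _) hlog
    · have : List.ofFn I = [] := by simp
      rw [this]
      refine ⟨fun h => ⟨0, by simp [h]⟩, fun h => ⟨0, by simp [h]⟩⟩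
  · obtain ⟨M, D, b, f, hM, hD, hTN, hb, hf, hfb, hS⟩ := hC T hT
    have hκ0 : 0 < κ := by omega
    have hTN' : T ≤ M ^ D := le_trans (Nat.le_mul_of_pos_left _ hκ0) hTN
    have hN2 : 2 ≤ M ^ D := by omega
    have hMN : M ≤ M ^ D := Nat.le_self_pow hD.ne' M
    have hcard := card_VT_le (Q := Q) (Γ := Γ) (k := k) (n := n) (T := T) (R := R) (N := M ^ D)
      (hnT.trans hTN') hTN' hN2
    have hcell := cell_le hcard hc0 hMN hN2
    have hpow : ((400 * c) * M ^ D) ^ (5 * (k + 3) + 6) ≤ 2 ^ b := by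
      refine le_trans ?_ hb
      calc ((400 * c) * M ^ D) ^ (5 * (k + 3) + 6) ≤ (κ * M ^ D) ^ (5 * (k + 3) + 6) := by
            apply Nat.pow_le_pow_left
            apply Nat.mul_le_mul_right
            omega
        _ ≤ (κ * M ^ D) ^ κ := Nat.pow_le_pow_right (Nat.mul_pos hκ0 (by omega)) (by omega)
    have hRT : T * (R + 1) ≤ M ^ D := by
      refine le_trans ?_ hTN
      rw [mul_comm]
      exact Nat.mul_le_mul_right _ (by omega)
    obtain ⟨S, hS1, B, hB⟩ := exists_bp δ q₀ F hR hn hM hRT hf hfb (hcell.1.trans hpow)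
      (hcell.2.trans hpow)
    refine ⟨S, B, ?_, hB⟩
    refine le_trans ?_ (hS.trans hexp)
    norm_cast
    refine hS1.trans ?_
    gcongr
    omega

end Pool.Agent.Helper17.SL
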