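import Mathlib

/-!
Two-way multihead deterministic pushdown automata (in the model of the frozen statements of
MP_4e849b_lc) with a time bound, and deterministic branching programs.
-/

namespace Pool.Agent.Helper17.SL

/-- Transition function of a two-way `k`-head deterministic pushdown automaton with states `Q`,
input letters `α`, stack symbols `Γ`: from the state, what each head sees (is it on the left
endmarker, and the letter under it if any), and the top stack symbol if any, it gives the new
state, a movement for each head (`0` left, `1` stay, `2` right) and the word that replaces the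
top stack symbol. -/
abbrev PDTrans (α Q Γ : Type) (k : ℕ) : Type :=
  Q → (Fin k → Bool × Option α) → Option Γ → Q × (Fin k → Fin 3) × List Γ

/-- One move on the word `w` from the configuration (state, head positions, stack); position `0`
is the left endmarker and position `w.length + 1` the right endmarker. -/
def pdStep {α Q Γ : Type} {k : ℕ} (δ : PDTrans α Q Γ k) (w : List α)
    (c : Q × (Fin k → ℕ) × List Γ) : Q × (Fin k → ℕ) × List Γ :=
  ((δ c.1 (fun j => (decide (c.2.1 j = 0), w[c.2.1 j - 1]?)) c.2.2.head?).1,
    (fun i => if (δ c.1 (fun j => (decide (c.2.1 j = 0), w[c.2.1 j - 1]?)) c.2.2.head?).2.1 i = 0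
      then c.2.1 i - 1
      else if (δ c.1 (fun j => (decide (c.2.1 j = 0), w[c.2.1 j - 1]?)) c.2.2.head?).2.1 i = 1
      then c.2.1 i
      else min (c.2.1 i + 1) (w.length + 1)),
    (δ c.1 (fun j => (decide (c.2.1 j = 0), w[c.2.1 j - 1]?)) c.2.2.head?).2.2 ++ c.2.2.tail)

/-- The automaton reaches a state of `F` on the word `w` within `T` moves. -/
def AcceptsIn {α Q Γ : Type} {k : ℕ} (δ : PDTrans α Q Γ k) (q₀ : Q) (F : Set Q) (T : ℕ)
    (w : List α) : Prop :=
  ∃ m ≤ T, ((pdStep δ w)^[m] (q₀, fun _ => 0, [])).1 ∈ F

/-- A deterministic branching program with `N` states for words of length `n`: each state either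
queries a letter of the word and moves according to it, or is final with an answer. -/
structure BP (α : Type) (n N : ℕ) where
  start : Fin N
  act : Fin N → (Fin n × (α → Fin N)) ⊕ Bool

/-- One step of the program on the word `I` (final states do not move). -/
def BP.step {α : Type} {n N : ℕ} (B : BP α n N) (I : Fin n → α) (q : Fin N) : Fin N :=
  (B.act q).elim (fun t => t.2 (I t.1)) (fun _ => q)

/-- The computation on the word `I` reaches a final state with answer `o`. -/
def BP.Outputs {α : Type} {n N : ℕ} (B : BP α n N) (I : Fin n → α) (o : Bool) : Prop :=
  ∃ m : ℕ, B.act ((B.step I)^[m] B.start) = Sum.inr o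

end Pool.Agent.Helper17.SL
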