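import Pool.Agent.Helper17.SL.MacroStep

/-!
Sub-log-squared space for pushdown automata: abstract stack machines.
-/

namespace Pool.Agent.Helper17.SL

/-- Stack action of one step. -/
inductive SAct (Γ : Type) where
  | stay
  | pop
  | push (y : Γ)

/-- Transition function of a stack machine. -/
abbrev Stp (S Γ : Type) : Type := S → Option Γ → S × SAct Γ

/-- One step. -/
def cstep {S Γ : Type} (stp : Stp S Γ) (c : S × List Γ) : S × List Γ :=
  match stp c.1 c.2.head? with
  | (s, .stay) => (s, c.2)
  | (s, .pop) => (s, c.2.tail)
  | (s, .push y) => (s, y :: c.2)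

/-- Values: time, height, control, top symbol. -/
abbrev Val (N : ℕ) (S Γ : Type) : Type := Fin (N + 1) × Fin (N + 1) × S × Option Γ

/-- Clamp. -/
def clamp (N a : ℕ) : Fin (N + 1) := ⟨min a N, by omega⟩

theorem clamp_val {N a : ℕ} (h : a ≤ N) : (clamp N a : ℕ) = a := min_eq_left h

/-- Time and height of a value. -/
def vtm {N : ℕ} {S Γ : Type} (v : Val N S Γ) : ℕ := v.1
def vht {N : ℕ} {S Γ : Type} (v : Val N S Γ) : ℕ := v.2.1

/-- The value of a configuration at time `t`. -/
def valOf (N : ℕ) {S Γ : Type} (t : ℕ) (c : S × List Γ) : Val N S Γ :=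
  (clamp N t, clamp N c.2.length, c.1, c.2.head?)

/-- One step of the run, from the value `x`, with the generator `g`. -/
def phi0 {N : ℕ} {S Γ : Type} (stp : Stp S Γ) (g x : Val N S Γ) : Res (Val N S Γ) :=
  match stp x.2.2.1 x.2.2.2 with
  | (s, .stay) => .done (clamp N (x.1 + 1), x.2.1, s, x.2.2.2) x
  | (s, .push y) => .done (clamp N (x.1 + 1), clamp N (x.2.1 + 1), s, some y) x
  | (s, .pop) =>
    if (x.2.1 : ℕ) = 0 then .done (clamp N (x.1 + 1), x.2.1, s, x.2.2.2) x
    else if (x.2.1 : ℕ) ≤ g.2.1 then .popped x
    else .done (clamp N (x.1 + 1), clamp N (x.2.1 - 1), s, g.2.2.2) x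

section run

variable {S Γ : Type} (stp : Stp S Γ) (c0 : S × List Γ)

theorem cstep_length_le (c : S × List Γ) : (cstep stp c).2.length ≤ c.2.length + 1 := by
  unfold cstep
  rcases stp c.1 c.2.head? with ⟨s, a⟩
  cases a <;> simp
  omega

theorem le_cstep_length (c : S × List Γ) : c.2.length ≤ (cstep stp c).2.length + 1 := by
  unfold cstep
  rcases stp c.1 c.2.head? with ⟨s, a⟩
  cases a <;> simp <;> omega

theorem suffix_step {c : S × List Γ} {l : List Γ} (h : l <:+ c.2)
    (hl : l.length ≤ (cstep stp c).2.length) : l <:+ (cstep stp c).2 := by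
  unfold cstep at hl ⊢
  generalize stp c.1 c.2.head? = sa at hl ⊢
  rcases sa with ⟨s, a⟩
  cases a with
  | stay => exact h
  | push y => exact h.trans (List.suffix_cons _ _)
  | pop =>
    simp only at hl ⊢
    cases hc : c.2 with
    | nil => rw [hc] at h; simpa using h
    | cons y l' =>
      rw [hc] at h hl
      simp only [List.tail_cons] at hl ⊢
      rcases List.suffix_cons_iff.mp h with h' | h'
      · rw [h'] at hl
        simp at hl
      · exact h'

/-- The run. -/
def crun (t : ℕ) : S × List Γ := (cstep stp)^[t] c0

theorem crun_succ (t : ℕ) : crun stp c0 (t + 1) = cstep stp (crun stp c0 t) :=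
  Function.iterate_succ_apply' _ _ _

theorem crun_length (t : ℕ) : (crun stp c0 t).2.length ≤ c0.2.length + t := by
  induction t with
  | zero => simp [crun]
  | succ t ih =>
    rw [crun_succ]
    have := cstep_length_le stp (crun stp c0 t)
    omega

theorem crun_suffix {s t : ℕ} (hst : s ≤ t)
    (h : ∀ r, s ≤ r → r ≤ t → (crun stp c0 s).2.length ≤ (crun stp c0 r).2.length) :
    (crun stp c0 s).2 <:+ (crun stp c0 t).2 := by
  induction t, hst using Nat.le_induction with
  | base => exact List.suffix_refl _
  | succ t hst ih =>
    have h1 := ih (fun r hr1 hr2 => h r hr1 (by omega))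
    have h2 := h (t + 1) (by omega) le_rfl
    rw [crun_succ] at h2 ⊢
    exact suffix_step stp h1 h2

theorem phi0_right {N : ℕ} (hc0 : c0.2 = []) (s t : ℕ) (hst : s ≤ t) (htN : t < N)
    (hL : Legit (fun u => (crun stp c0 u).2.length) 1 s t)
    (hle : (crun stp c0 s).2.length ≤ (crun stp c0 t).2.length) :
    Right (fun u => (crun stp c0 u).2.length) (fun u => valOf N u (crun stp c0 u)) 1 s t
      (phi0 stp (valOf N s (crun stp c0 s)) (valOf N t (crun stp c0 t))) := by
  have hb : ∀ u, blk 1 u = u + 1 := by intro u; simp [blk]
  have hlen : ∀ u, (crun stp c0 u).2.length ≤ u := by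
    intro u
    have := crun_length stp c0 u
    rw [hc0] at this
    simpa using this
  have hstep := crun_succ stp c0 t
  have key : (crun stp c0 s).2.length ≤ (crun stp c0 (t + 1)).2.length →
      phi0 stp (valOf N s (crun stp c0 s)) (valOf N t (crun stp c0 t)) =
        .done (valOf N (t + 1) (crun stp c0 (t + 1))) (valOf N t (crun stp c0 t)) →
      Right (fun u => (crun stp c0 u).2.length) (fun u => valOf N u (crun stp c0 u)) 1 s t
      (phi0 stp (valOf N s (crun stp c0 s)) (valOf N t (crun stp c0 t))) := by
    intro h1 h2
    refine Or.inr ⟨t, le_rfl, by rw [hb]; omega, fun r hr1 hr2 => ?_, fun r hr1 hr2 => ?_,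
      fun r hr1 hr2 => ?_, ?_⟩
    · rw [hb] at hr2
      rcases hr2.lt_or_eq with h | h
      · have : r = t := by omega
        rw [this]; exact hle
      · rw [h]; exact h1
    · rw [hb] at hr2
      have : r = t := by omega
      rw [this]
    · rw [hb] at hr2
      omega
    · rw [hb]; exact h2
  have ht1 : ((clamp N t : Fin (N + 1)) : ℕ) = t := clamp_val htN.le
  have ht2 : ((clamp N (crun stp c0 t).2.length : Fin (N + 1)) : ℕ) =
      (crun stp c0 t).2.length := clamp_val ((hlen t).trans htN.le)
  have hs2 : ((clamp N (crun stp c0 s).2.length : Fin (N + 1)) : ℕ) =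
      (crun stp c0 s).2.length := clamp_val ((hlen s).trans (by omega))
  cases hstp : stp (crun stp c0 t).1 (crun stp c0 t).2.head? with
  | mk s1 a =>
    cases a with
    | stay =>
      have e : crun stp c0 (t + 1) = (s1, (crun stp c0 t).2) := by
        rw [hstep]; unfold cstep; rw [hstp]
      refine key (by rw [e]; exact hle) ?_
      unfold phi0 valOf
      simp only [hstp, ht1, e]
    | push y =>
      have e : crun stp c0 (t + 1) = (s1, y :: (crun stp c0 t).2) := by
        rw [hstep]; unfold cstep; rw [hstp]
      refine key (by rw [e]; simp only [List.length_cons]; omega) ?_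
      unfold phi0 valOf
      simp only [hstp, ht1, ht2, e, List.length_cons, List.head?_cons]
    | pop =>
      have e : crun stp c0 (t + 1) = (s1, (crun stp c0 t).2.tail) := by
        rw [hstep]; unfold cstep; rw [hstp]
      by_cases hz : (crun stp c0 t).2 = []
      · refine key (by rw [e, hz] ; rw [hz] at hle; simpa using hle) ?_
        have hz0 : (crun stp c0 t).2.length = 0 := by rw [hz]; rfl
        unfold phi0 valOf
        simp only [hstp, ht1, ht2, hz0, if_true, e]
        rw [hz]
        rfl
      · have hpos : 0 < (crun stp c0 t).2.length := List.length_pos_iff.mpr hz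
        by_cases hcmp : (crun stp c0 t).2.length ≤ (crun stp c0 s).2.length
        · left
          refine ⟨t, le_rfl, by rw [hb]; omega, ?_, fun r hr1 hr2 => ?_, ?_⟩
          · simp only [e, List.length_tail]
            omega
          · have : r = t := by omega
            rw [this]; exact hle
          · unfold phi0 valOf
            simp only [hstp, ht2, hs2, hcmp, if_true]
            rw [if_neg (by omega)]
        · have hst' : s ≠ t := by
            rintro rfl
            exact hcmp le_rfl
          rcases hL with hL | ⟨hL1, hL2, hL3⟩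
          · exact absurd hL hst'
          · have h1 := hL3 (s + 1) (by rw [hb]) (by rw [hb] at hL1; exact hL1)
            have h2 := cstep_length_le stp (crun stp c0 s)
            rw [← crun_succ] at h2
            simp only at h1
            have h3 : (crun stp c0 (t + 1)).2.length = (crun stp c0 s).2.length := by
              rw [e]; simp only [List.length_tail]; omega
            have h4 : (crun stp c0 s).2 <:+ (crun stp c0 (t + 1)).2 := by
              apply crun_suffix stp c0 (by omega)
              intro r hr1 hr2
              rcases hr2.lt_or_eq with h | h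
              · exact hL2 r hr1 (by omega)
              · rw [h, h3]
            have h5 : (crun stp c0 s).2 = (crun stp c0 (t + 1)).2 := h4.eq_of_length h3.symm
            refine key (by rw [h3]) ?_
            have h6 : (crun stp c0 t).2.tail = (crun stp c0 s).2 := by rw [h5, e]
            unfold phi0 valOf
            simp only [hstp, ht1, ht2, hs2, e]
            rw [if_neg (by omega), if_neg hcmp, h6]
            have h7 : (crun stp c0 t).2.length - 1 = (crun stp c0 s).2.length := by
              rw [← h6]; simp
            rw [h7]

/-- The value at time `N` is computed by `Phi`. -/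
theorem phi_run {M D N : ℕ} (hM : 0 < M) (hN : N = M ^ D) (hc0 : c0.2 = []) :
    ∃ u, Phi vtm vht M (phi0 (N := N) stp) D (valOf N 0 c0) (valOf N 0 c0) =
      .done (valOf N N (crun stp c0 N)) u := by
  have hlen : ∀ u, (crun stp c0 u).2.length ≤ u := by
    intro u
    have := crun_length stp c0 u
    rw [hc0] at this
    simpa using this
  have := Phi_final (V := Val N S Γ) (tm := vtm) (ht := vht)
    (h := fun u => (crun stp c0 u).2.length) (C := fun u => valOf N u (crun stp c0 u))
    hM hN (fun t ht => clamp_val ht) (fun t ht => clamp_val ((hlen t).trans ht))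
    (fun t ht => by
      have := le_cstep_length stp (crun stp c0 t)
      rw [← crun_succ] at this
      exact this)
    (by simp [crun, hc0]) (fun s t hst htN hL hle => phi0_right stp c0 hc0 s t hst htN hL hle)
  exact this

end run

end Pool.Agent.Helper17.SL
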