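import Pool.Agent.Helper17.SL.Defs
import Pool.Agent.Helper17.SL.Stack

/-!
Sub-log-squared space for pushdown automata: from two-way multihead pushdown automata with a
time bound to abstract stack machines.
-/

namespace Pool.Agent.Helper17.SL

section

variable {α Q Γ : Type} {k : ℕ}

/-- Pending words. -/
abbrev Pend (Γ : Type) (R : ℕ) : Type := {l : List Γ // l.length ≤ R}

/-- Controls: number of moves made, state, head positions, pending word. -/
abbrev Ctl (Q Γ : Type) (k n T R : ℕ) : Type :=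
  Fin (T + 1) × Q × (Fin k → Fin (n + 2)) × Pend Γ R

/-- Position after a movement. -/
def mvp (n : ℕ) (d : Fin 3) (x : ℕ) : ℕ :=
  if d = 0 then x - 1 else if d = 1 then x else min (x + 1) (n + 1)

/-- One step of the stack machine, given what the heads see. -/
def mstp {n T R : ℕ} (δ : PDTrans α Q Γ k) (F : Q → Bool) (s : Ctl Q Γ k n T R) (X : Option Γ)
    (v : Fin k → Option α) : Ctl Q Γ k n T R × SAct Γ :=
  match s.2.2.2 with
  | ⟨y :: ys, h⟩ => ((s.1, s.2.1, s.2.2.1, ⟨ys, by simp at h; omega⟩), .push y)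
  | ⟨[], _⟩ =>
    if F s.2.1 = true ∨ (s.1 : ℕ) = T then (s, .stay)
    else ((clamp T (s.1 + 1), (δ s.2.1 (fun j => (decide ((s.2.2.1 j : ℕ) = 0), v j)) X).1,
      fun i => ⟨min (mvp n ((δ s.2.1 (fun j => (decide ((s.2.2.1 j : ℕ) = 0), v j)) X).2.1 i)
        (s.2.2.1 i)) (n + 1), by omega⟩,
      ⟨((δ s.2.1 (fun j => (decide ((s.2.2.1 j : ℕ) = 0), v j)) X).2.2.reverse).take R,
        by simp⟩), if X.isNone then .stay else .pop)

/-- The stack machine on the word `w`. -/
def wstp {n T R : ℕ} (δ : PDTrans α Q Γ k) (F : Q → Bool) (w : List α) :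
    Stp (Ctl Q Γ k n T R) Γ :=
  fun s X => mstp δ F s X (fun j => w[(s.2.2.1 j : ℕ) - 1]?)

theorem pdStep_pos {δ : PDTrans α Q Γ k} {w : List α} {c : Q × (Fin k → ℕ) × List Γ}
    (h : ∀ j, c.2.1 j ≤ w.length + 1) : ∀ j, (pdStep δ w c).2.1 j ≤ w.length + 1 := by
  intro j
  have := h j
  unfold pdStep
  simp only
  split_ifs
  · omega
  · exact this
  · exact min_le_right _ _

theorem iter_pos {δ : PDTrans α Q Γ k} {w : List α} (q₀ : Q) (m : ℕ) :
    ∀ j, ((pdStep δ w)^[m] (q₀, fun _ => 0, [])).2.1 j ≤ w.length + 1 := by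
  induction m with
  | zero => intro j; simp
  | succ m ih =>
    rw [Function.iterate_succ_apply']
    exact pdStep_pos ih

variable {n T R : ℕ}

theorem push_phase (δ : PDTrans α Q Γ k) (F : Q → Bool) (w : List α) (l : List Γ)
    (hl : l.length ≤ R) (a : Fin (T + 1)) (q : Q) (pos : Fin k → Fin (n + 2)) (st : List Γ) :
    (cstep (wstp δ F w))^[l.length] ((a, q, pos, (⟨l, hl⟩ : Pend Γ R)), st) =
      ((a, q, pos, ⟨[], Nat.zero_le _⟩), l.reverse ++ st) := by
  induction l generalizing st with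
  | nil => rfl
  | cons y l ih =>
    rw [List.length_cons, Function.iterate_succ_apply]
    have h1 : cstep (wstp δ F w) ((a, q, pos, (⟨y :: l, hl⟩ : Pend Γ R)), st) =
        ((a, q, pos, ⟨l, by simp at hl; omega⟩), y :: st) := rfl
    rw [h1, ih]
    simp

theorem halt_phase (δ : PDTrans α Q Γ k) (F : Q → Bool) (w : List α) (a : Fin (T + 1)) (q : Q)
    (pos : Fin k → Fin (n + 2)) (st : List Γ) (h : F q = true ∨ (a : ℕ) = T) (i : ℕ) :
    (cstep (wstp δ F w))^[i] ((a, q, pos, (⟨[], Nat.zero_le _⟩ : Pend Γ R)), st) =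
      ((a, q, pos, ⟨[], Nat.zero_le _⟩), st) := by
  have h1 : cstep (wstp δ F w) ((a, q, pos, (⟨[], Nat.zero_le _⟩ : Pend Γ R)), st) =
      ((a, q, pos, ⟨[], Nat.zero_le _⟩), st) := by
    unfold cstep wstp mstp
    simp [h]
  exact Function.iterate_fixed h1 i

/-- One move is simulated in at most `R + 1` steps. -/
theorem sim_move (δ : PDTrans α Q Γ k) (F : Q → Bool) (w : List α) (hn : w.length = n)
    (hR : ∀ q v X, (δ q v X).2.2.length ≤ R) (m : ℕ) (hm : m < T)
    (c : Q × (Fin k → ℕ) × List Γ) (hpos : ∀ j, c.2.1 j ≤ n + 1) (hF : F c.1 ≠ true) :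
    ∃ i ≤ R + 1, (cstep (wstp (n := n) (T := T) (R := R) δ F w))^[i]
      ((clamp T m, c.1, fun j => ⟨c.2.1 j, by have := hpos j; omega⟩, ⟨[], Nat.zero_le _⟩),
        c.2.2) =
      ((clamp T (m + 1), (pdStep δ w c).1, fun j => ⟨(pdStep δ w c).2.1 j, by
          have := pdStep_pos (δ := δ) (w := w) (c := c) (by rw [hn]; exact hpos) j
          omega⟩, ⟨[], Nat.zero_le _⟩), (pdStep δ w c).2.2) := by
  obtain ⟨q, pos, st⟩ := c
  simp only at hpos hF ⊢
  set r := δ q (fun j => (decide (pos j = 0), w[pos j - 1]?)) st.head? with hr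
  have hlen : r.2.2.reverse.length ≤ R := by simpa using hR _ _ _
  refine ⟨r.2.2.reverse.length + 1, by omega, ?_⟩
  rw [Function.iterate_succ_apply]
  have hm1 : ((clamp T m : Fin (T + 1)) : ℕ) = m := clamp_val hm.le
  have h1 : cstep (wstp (n := n) (T := T) (R := R) δ F w)
      ((clamp T m, q, fun j => ⟨pos j, by have := hpos j; omega⟩, ⟨[], Nat.zero_le _⟩), st) =
      ((clamp T (m + 1), r.1, fun j => ⟨(pdStep δ w (q, pos, st)).2.1 j, by
          have := pdStep_pos (δ := δ) (w := w) (c := (q, pos, st)) (by rw [hn]; exact hpos) j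
          omega⟩, ⟨r.2.2.reverse, hlen⟩), st.tail) := by
    have hcond : ¬ (F q = true ∨ ((clamp T m : Fin (T + 1)) : ℕ) = T) := by
      rw [hm1]
      rintro (h | h)
      · exact hF h
      · omega
    have h2 : mstp (n := n) (T := T) (R := R) δ F
        (clamp T m, q, fun j => ⟨pos j, by have := hpos j; omega⟩, ⟨[], Nat.zero_le _⟩)
        st.head? (fun j => w[pos j - 1]?) =
        ((clamp T (m + 1), r.1, fun j => ⟨(pdStep δ w (q, pos, st)).2.1 j, by
          have := pdStep_pos (δ := δ) (w := w) (c := (q, pos, st)) (by rw [hn]; exact hpos) j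
          omega⟩, ⟨r.2.2.reverse, hlen⟩), if st.head?.isNone then .stay else .pop) := by
      rw [hm1] at hcond
      unfold mstp
      simp only [hm1]
      rw [if_neg hcond]
      refine Prod.ext (Prod.ext rfl (Prod.ext rfl (Prod.ext ?_ ?_))) rfl
      · funext i
        simp only [Fin.mk.injEq]
        have h3 := pdStep_pos (δ := δ) (w := w) (c := (q, pos, st)) (by rw [hn]; exact hpos) i
        rw [hn] at h3
        have h4 : mvp n (r.2.1 i) (pos i) = (pdStep δ w (q, pos, st)).2.1 i := by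
          unfold mvp pdStep
          simp only [hn]
          rfl
        rw [← h4] at h3 ⊢
        exact min_eq_left h3
      · simp only [Subtype.mk.injEq]
        exact List.take_of_length_le hlen
    unfold cstep wstp
    simp only
    rw [h2]
    cases st with
    | nil => simp
    | cons x st => simp
  rw [h1, push_phase]
  simp only [List.reverse_reverse]
  rfl

theorem sim_moves (δ : PDTrans α Q Γ k) (F : Q → Bool) (w : List α) (hn : w.length = n)
    (hR : ∀ q v X, (δ q v X).2.2.length ≤ R) (q₀ : Q) (m : ℕ) (hm : m ≤ T)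
    (hF : ∀ m' < m, F ((pdStep δ w)^[m'] (q₀, fun _ => 0, [])).1 ≠ true) :
    ∃ i ≤ m * (R + 1), (cstep (wstp (n := n) (T := T) (R := R) δ F w))^[i]
      ((clamp T 0, q₀, fun _ => ⟨0, by omega⟩, ⟨[], Nat.zero_le _⟩), []) =
      ((clamp T m, ((pdStep δ w)^[m] (q₀, fun _ => 0, [])).1,
        fun j => ⟨((pdStep δ w)^[m] (q₀, fun _ => 0, [])).2.1 j, by
          have := iter_pos (δ := δ) (w := w) q₀ m j
          omega⟩, ⟨[], Nat.zero_le _⟩), ((pdStep δ w)^[m] (q₀, fun _ => 0, [])).2.2) := by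
  induction m with
  | zero => exact ⟨0, by omega, rfl⟩
  | succ m ih =>
    obtain ⟨i, hi, h1⟩ := ih (by omega) (fun m' hm' => hF m' (by omega))
    obtain ⟨i', hi', h2⟩ := sim_move (T := T) δ F w hn hR m (by omega)
      ((pdStep δ w)^[m] (q₀, fun _ => 0, []))
      (fun j => by have := iter_pos (δ := δ) (w := w) q₀ m j; omega) (hF m (by omega))
    refine ⟨i' + i, by rw [add_mul]; omega, ?_⟩
    rw [Function.iterate_add_apply, h1, h2]
    simp only [Function.iterate_succ_apply']

/-- The answer of the stack machine. -/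
theorem wstp_answer (δ : PDTrans α Q Γ k) (F : Q → Bool) (w : List α) (hn : w.length = n)
    (hR : ∀ q v X, (δ q v X).2.2.length ≤ R) (q₀ : Q) {N : ℕ} (hN : T * (R + 1) ≤ N) :
    F ((crun (wstp (n := n) (T := T) (R := R) δ F w)
      ((clamp T 0, q₀, fun _ => ⟨0, by omega⟩, ⟨[], Nat.zero_le _⟩), []) N).1.2.1) = true ↔
      AcceptsIn δ q₀ {q | F q = true} T w := by
  classical
  have key : ∀ m ≤ T, (∀ m' < m, F ((pdStep δ w)^[m'] (q₀, fun _ => 0, [])).1 ≠ true) →
      (F ((pdStep δ w)^[m] (q₀, fun _ => 0, [])).1 = true ∨ m = T) →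
      (crun (wstp (n := n) (T := T) (R := R) δ F w)
      ((clamp T 0, q₀, fun _ => ⟨0, by omega⟩, ⟨[], Nat.zero_le _⟩), []) N).1.2.1 =
        ((pdStep δ w)^[m] (q₀, fun _ => 0, [])).1 := by
    intro m hm hF hh
    obtain ⟨i, hi, h1⟩ := sim_moves (T := T) δ F w hn hR q₀ m hm hF
    have hiN : i ≤ N := hi.trans ((Nat.mul_le_mul_right _ hm).trans hN)
    unfold crun
    have : N = (N - i) + i := by omega
    rw [this, Function.iterate_add_apply, h1, halt_phase]
    rcases hh with h | h
    · exact Or.inl h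
    · right
      rw [h]
      exact clamp_val le_rfl
  by_cases hA : AcceptsIn δ q₀ {q | F q = true} T w
  · have hex : ∃ m, F ((pdStep δ w)^[m] (q₀, fun _ => 0, [])).1 = true := by
      obtain ⟨m, _, hm⟩ := hA
      exact ⟨m, hm⟩
    have hle : Nat.find hex ≤ T := by
      obtain ⟨m, hm1, hm⟩ := hA
      exact (Nat.find_min' hex hm).trans hm1
    rw [key (Nat.find hex) hle (fun m' hm' => Nat.find_min hex hm') (Or.inl (Nat.find_spec hex))]
    exact iff_of_true (Nat.find_spec hex) hA
  · have hno : ∀ m ≤ T, F ((pdStep δ w)^[m] (q₀, fun _ => 0, [])).1 ≠ true := by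
      intro m hm h
      exact hA ⟨m, hm, h⟩
    rw [key T le_rfl (fun m' hm' => hno m' hm'.le) (Or.inr rfl)]
    exact iff_of_false (hno T le_rfl) hA

end

end Pool.Agent.Helper17.SL
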