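import Mathlib

/-!
Sub-log-squared space for pushdown automata: blocks of a run and the macro stack machine.
-/

namespace Pool.Agent.Helper17.SL

/-- Result of a partial run relative to a generator. -/
inductive Res (V : Type) where
  | none
  | popped (x : V)
  | done (z u : V)

/-- State of the macro machine. -/
structure MS (V : Type) where
  ph : Bool
  cur : V
  best : Option V
  fin : Res V

/-- Action on the macro stack. -/
inductive Act (V : Type) where
  | stay
  | pop
  | push (u : V)

/-- The action on the stack. -/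
def Act.app {V : Type} : Act V → List V → List V
  | .stay, l => l
  | .pop, l => l.tail
  | .push u, l => u :: l

/-- End of the block of length `P` which contains `t`. -/
def blk (P t : ℕ) : ℕ := (t / P + 1) * P

section defs

variable {V : Type} (tm ht : V → ℕ)

/-- The lower of the two values, the second one if they have the same height. -/
def better (best : Option V) (u : V) : Option V :=
  match best with
  | .none => some u
  | .some v => if ht u ≤ ht v then some u else some v

/-- One step of the macro machine. -/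
def comb (P : ℕ) (g x : V) (q : MS V) (res : Res V) : MS V × Act V :=
  match q.fin with
  | .none =>
    if q.ph = false ∧ blk P (tm g) ≤ tm q.cur then ({ q with ph := true, cur := x }, .stay)
    else if q.ph = true ∧ blk P (tm x) ≤ tm q.cur then
      ({ q with fin := .done q.cur (q.best.getD q.cur) }, .stay)
    else match res with
      | .none => ({ q with fin := .popped q.cur }, .stay)
      | .popped y => ({ q with cur := y }, .pop)
      | .done z u => ({ q with cur := z, best := if q.ph then better ht q.best u else .none },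
          .push u)
  | _ => (q, .stay)

/-- The answer to the call of the macro machine. -/
def call (Φ : V → V → Res V) (top : Option V) (cur : V) : Res V :=
  match top with
  | .none => .none
  | .some g => Φ g cur

/-- One step of the macro machine with its stack. -/
def mstep (P : ℕ) (g x : V) (Φ : V → V → Res V) (c : MS V × List V) : MS V × List V :=
  ((comb tm ht P g x c.1 (call Φ c.2.head? c.1.cur)).1,
    (comb tm ht P g x c.1 (call Φ c.2.head? c.1.cur)).2.app c.2)

/-- Initial state of the macro machine. -/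
def minit (g x : V) : MS V :=
  if tm g = tm x then ⟨true, x, .none, .none⟩ else ⟨false, g, .none, .none⟩

/-- The function computed at scale `d`. -/
def Phi (M : ℕ) (Φ₀ : V → V → Res V) : ℕ → V → V → Res V
  | 0 => fun g x => if ht x < ht g then .popped x else Φ₀ g x
  | d + 1 => fun g x => if ht x < ht g then .popped x else
      ((mstep tm ht (M ^ (d + 1)) g x (Phi M Φ₀ d))^[4 * M + 4] (minit tm g x, [g])).1.fin

end defs

/-! ### blocks -/

theorem lt_blk {P : ℕ} (hP : 0 < P) (t : ℕ) : t < blk P t := by
  unfold blk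
  have := Nat.div_add_mod t P
  have h2 := Nat.mod_lt t hP
  nlinarith

theorem blk_le {P E t : ℕ} (hP : 0 < P) (hE : P ∣ E) (h : t < E) : blk P t ≤ E := by
  obtain ⟨k, rfl⟩ := hE
  unfold blk
  have h1 : t / P < k := by
    rw [Nat.div_lt_iff_lt_mul hP]
    linarith [mul_comm P k]
  calc (t / P + 1) * P ≤ k * P := Nat.mul_le_mul_right _ h1
    _ = P * k := mul_comm _ _

theorem dvd_blk (P t : ℕ) : P ∣ blk P t := Dvd.intro_left _ rfl

theorem blk_div {P : ℕ} (hP : 0 < P) (t : ℕ) : blk P t / P = t / P + 1 := by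
  unfold blk
  exact Nat.mul_div_cancel _ hP

section correct

variable {V : Type} (tm ht : V → ℕ) (h : ℕ → ℕ) (C : ℕ → V)

/-- The pairs of times for which the partial run is a function of the values at these times. -/
def Legit (P s t : ℕ) : Prop :=
  s = t ∨ (blk P s ≤ t ∧ (∀ r, s ≤ r → r ≤ t → h s ≤ h r) ∧
    (∀ r, blk P s ≤ r → r ≤ t → h t ≤ h r))

/-- The right result for such a pair. -/
def Right (P s t : ℕ) (res : Res V) : Prop :=
  (∃ r0, t ≤ r0 ∧ r0 < blk P t ∧ h (r0 + 1) < h s ∧ (∀ r, t ≤ r → r ≤ r0 → h s ≤ h r) ∧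
    res = .popped (C r0)) ∨
  (∃ s', t ≤ s' ∧ s' < blk P t ∧ (∀ r, t ≤ r → r ≤ blk P t → h s ≤ h r) ∧
    (∀ r, t ≤ r → r < blk P t → h s' ≤ h r) ∧ (∀ r, s' < r → r < blk P t → h s' < h r) ∧
    res = .done (C (blk P t)) (C s'))

/-- Invariant of the macro stack. -/
def SOK (P b τ : ℕ) : List ℕ → Prop
  | [] => True
  | e :: l => e ≤ τ ∧ (∀ r, e ≤ r → r ≤ τ → min (h e) (h τ) ≤ h r) ∧
      (∀ r, blk P e ≤ r → r ≤ τ → min b (h τ) ≤ h r) ∧ (∀ f ∈ l, h f ≤ h e) ∧ SOK P (h e) τ l

variable {h C}

theorem SOK.mono {P b b' τ : ℕ} {l : List ℕ} (H : SOK h P b τ l) (hb : b' ≤ b) :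
    SOK h P b' τ l := by
  cases l with
  | nil => trivial
  | cons e l =>
    obtain ⟨h1, h3, h4, h5, h6⟩ := H
    refine ⟨h1, h3, fun r hr hr' => le_trans ?_ (h4 r hr hr'), h5, h6⟩
    exact min_le_min_right _ hb

theorem SOK.advance {P b τ τ' : ℕ} {l : List ℕ} (H : SOK h P b τ l) (hl : ∀ f ∈ l, h f ≤ b)
    (hb : b ≤ h τ) (hτ : τ ≤ τ') (hr : ∀ r, τ ≤ r → r ≤ τ' → b ≤ h r) :
    SOK h P b τ' l := by
  induction l generalizing b with
  | nil => trivial
  | cons e l ih =>
    obtain ⟨h1, h3, h4, h5, h6⟩ := H
    have he : h e ≤ b := hl e (by simp)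
    have hτ' : b ≤ h τ' := hr τ' hτ le_rfl
    refine ⟨h1.trans hτ, fun r hr1 hr2 => ?_, fun r hr1 hr2 => ?_, h5, ?_⟩
    · rcases le_total r τ with hle | hle
      · have := h3 r hr1 hle
        rw [min_eq_left (he.trans hb)] at this
        exact (min_le_left _ _).trans this
      · exact (min_le_left _ _).trans (he.trans (hr r hle hr2))
    · rcases le_total r τ with hle | hle
      · have := h4 r hr1 hle
        rw [min_eq_left hb] at this
        exact (min_le_left _ _).trans this
      · exact (min_le_left _ _).trans (hr r hle hr2)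
    · exact ih h6 h5 (he.trans hb) (fun r hr1 hr2 => he.trans (hr r hr1 hr2))

theorem SOK.jump {P b τ τ' : ℕ} {l : List ℕ} (H : SOK h P b τ l) (hτ : τ ≤ τ')
    (hr : ∀ r, τ ≤ r → r ≤ τ' → h τ' ≤ h r) : SOK h P b τ' l := by
  induction l generalizing b with
  | nil => trivial
  | cons e l ih =>
    obtain ⟨h1, h3, h4, h5, h6⟩ := H
    have hτ' : h τ' ≤ h τ := hr τ le_rfl hτ
    refine ⟨h1.trans hτ, fun r hr1 hr2 => ?_, fun r hr1 hr2 => ?_, h5, ih h6⟩
    · rcases le_total r τ with hle | hle
      · exact (min_le_min_left _ hτ').trans (h3 r hr1 hle)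
      · exact (min_le_right _ _).trans (hr r hle hr2)
    · rcases le_total r τ with hle | hle
      · exact (min_le_min_left _ hτ').trans (h4 r hr1 hle)
      · exact (min_le_right _ _).trans (hr r hle hr2)

theorem SOK.legit {P τ e : ℕ} {l : List ℕ} (H : SOK h P (h τ) τ (e :: l)) (he : h e ≤ h τ)
    (hb : (∀ f ∈ e :: l, blk P f ≤ τ) ∨ e :: l = [τ]) : Legit h P e τ := by
  obtain ⟨h1, h3, h4, h5, h6⟩ := H
  rcases hb with hb | hb
  · refine Or.inr ⟨hb e (by simp), fun r hr1 hr2 => ?_, fun r hr1 hr2 => ?_⟩
    · have := h3 r hr1 hr2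
      rwa [min_eq_left he] at this
    · have := h4 r hr1 hr2
      rwa [min_self] at this
  · left
    simpa using congrArg List.head? hb

/-- Invariant of the best value: the last argmin of the height on `[t, β)`. -/
def BOK (h : ℕ → ℕ) (C : ℕ → V) (t β : ℕ) (best : Option V) : Prop :=
  (best = none ∧ β = t) ∨ ∃ σ, best = some (C σ) ∧ t ≤ σ ∧ σ < β ∧
    (∀ r, t ≤ r → r < β → h σ ≤ h r) ∧ (∀ r, σ < r → r < β → h σ < h r)

end correct

end Pool.Agent.Helper17.SL
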