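import Pool.Agent.Helper17.SL.Macro

/-!
Sub-log-squared space for pushdown automata: correctness of the macro machine.
-/

namespace Pool.Agent.Helper17.SL

variable {V : Type}

/-- Invariant of the macro machine during the call for the times `s`, `t`; `μ` bounds the number
of remaining steps. -/
inductive Inv (h : ℕ → ℕ) (C : ℕ → V) (M P P' s t : ℕ) : ℕ → MS V × List V → Prop
  | one {μ τ : ℕ} {l : List ℕ} (hτ : τ ≤ blk P' s) (hG : blk P' s ≤ t)
      (hl : l.getLast? = some s) (hS : SOK h P (h τ) τ l)
      (hb : (∀ f ∈ l, blk P f ≤ τ) ∨ l = [τ]) (hs : ∀ r, s ≤ r → r ≤ τ → h s ≤ h r)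
      (hμ : 2 * ((blk P' s / P - τ / P) + M) + l.length + 3 ≤ μ) :
      Inv h C M P P' s t μ (⟨false, C τ, none, .none⟩, l.map C)
  | two {μ τ β : ℕ} {l : List ℕ} {best : Option V} (hτ : τ ≤ blk P' t) (ht : t ≤ τ)
      (hl : l.getLast? = some s) (hS : SOK h P (h τ) τ l)
      (hb : (∀ f ∈ l, blk P f ≤ τ) ∨ l = [τ]) (hs : ∀ r, s ≤ r → r ≤ τ → h s ≤ h r)
      (htβ : t ≤ β) (hβ : β ≤ τ) (hβh : ∀ r, β ≤ r → r ≤ τ → h τ ≤ h r)
      (hB : BOK h C t β best) (hβE : β = τ ∨ τ < blk P' t)
      (hμ : 2 * (blk P' t / P - τ / P) + l.length + 2 ≤ μ) :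
      Inv h C M P P' s t μ (⟨true, C τ, best, .none⟩, l.map C)
  | three {μ r0 : ℕ} {best : Option V} (ht : t ≤ r0) (hE : r0 < blk P' t)
      (hr : h (r0 + 1) < h s) (hs : ∀ r, t ≤ r → r ≤ r0 → h s ≤ h r) (hμ : 1 ≤ μ) :
      Inv h C M P P' s t μ (⟨true, C r0, best, .none⟩, [])
  | fin {μ : ℕ} {q : MS V} {st : List V} (hne : q.fin ≠ .none) (hR : Right h C P' s t q.fin) :
      Inv h C M P P' s t μ (q, st)

variable {tm ht : V → ℕ} {h : ℕ → ℕ} {C : ℕ → V}

theorem comb_fin (P : ℕ) (g x : V) (q : MS V) (res : Res V) (hq : q.fin ≠ .none) :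
    comb tm ht P g x q res = (q, .stay) := by
  unfold comb
  split
  · rename_i h
    exact absurd h hq
  · rfl

theorem getLast_tail {l : List ℕ} {e s : ℕ} (hl : (e :: l).getLast? = some s) (hne : l ≠ []) :
    l.getLast? = some s := by
  rw [List.getLast?_cons_of_ne_nil hne] at hl
  exact hl

theorem blk_mono (P : ℕ) {a c : ℕ} (h : a ≤ c) : blk P a ≤ blk P c := by
  unfold blk
  have := Nat.div_le_div_right (c := P) h
  gcongr

theorem SOK.last_le {P b τ e s : ℕ} {l : List ℕ} (H : SOK h P b τ (e :: l))
    (hl : (e :: l).getLast? = some s) : h s ≤ h e := by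
  obtain ⟨_, _, _, h5, _⟩ := H
  have : s ∈ e :: l := List.mem_of_getLast? hl
  rcases List.mem_cons.mp this with rfl | hm
  · exact le_rfl
  · exact h5 s hm

/-- pushing a new entry -/
theorem SOK.push {P τ e s' : ℕ} {l : List ℕ} (H : SOK h P (h τ) τ (e :: l))
    (he : h e ≤ h τ) (hP : 0 < P) (h1 : τ ≤ s') (h2 : s' < blk P τ)
    (h3 : ∀ r, τ ≤ r → r ≤ blk P τ → h e ≤ h r) (h4 : ∀ r, τ ≤ r → r < blk P τ → h s' ≤ h r) :
    SOK h P (h (blk P τ)) (blk P τ) (s' :: e :: l) := by
  have hlt := lt_blk hP τ
  obtain ⟨a1, a2, a3, a4, a5⟩ := H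
  have hes' : h e ≤ h s' := h3 s' h1 h2.le
  refine ⟨h2.le, fun r hr1 hr2 => ?_, fun r hr1 hr2 => ?_, fun f hf => ?_, a1.trans hlt.le,
    fun r hr1 hr2 => ?_, fun r hr1 hr2 => ?_, a4, ?_⟩
  · rcases hr2.lt_or_eq with hr | hr
    · exact (min_le_left _ _).trans (h4 r (h1.trans hr1) hr)
    · rw [hr]; exact min_le_right _ _
  · have : r = blk P τ := le_antisymm hr2 ((blk_mono P h1).trans hr1)
    rw [this]; exact min_le_right _ _
  · rcases List.mem_cons.mp hf with rfl | hf
    · exact hes'
    · exact (a4 f hf).trans hes'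
  · rcases le_total r τ with hle | hle
    · have := a2 r hr1 hle
      rw [min_eq_left he] at this
      exact (min_le_left _ _).trans this
    · exact (min_le_left _ _).trans (h3 r hle hr2)
  · rcases le_total r τ with hle | hle
    · have := a3 r hr1 hle
      rw [min_self] at this
      exact (min_le_left _ _).trans ((h4 τ le_rfl hlt).trans this)
    · rcases hr2.lt_or_eq with hr | hr
      · exact (min_le_left _ _).trans (h4 r hle hr)
      · rw [hr]; exact min_le_right _ _
  · exact a5.advance a4 he hlt.le h3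

theorem bd_push {P τ e s' : ℕ} {l : List ℕ} (hP : 0 < P)
    (hb : (∀ f ∈ e :: l, blk P f ≤ τ) ∨ e :: l = [τ]) (h2 : s' < blk P τ) :
    ∀ f ∈ s' :: e :: l, blk P f ≤ blk P τ := by
  have hlt := lt_blk hP τ
  intro f hf
  rcases List.mem_cons.mp hf with rfl | hf
  · exact blk_le hP (dvd_blk P τ) h2
  · rcases hb with hb | hb
    · exact (hb f hf).trans hlt.le
    · rw [hb] at hf
      rw [List.mem_singleton.mp hf]

theorem bd_pop {P τ τ' e : ℕ} {l : List ℕ} (hne : l ≠ [])
    (hb : (∀ f ∈ e :: l, blk P f ≤ τ) ∨ e :: l = [τ]) (h : τ ≤ τ') :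
    ∀ f ∈ l, blk P f ≤ τ' := by
  intro f hf
  rcases hb with hb | hb
  · exact (hb f (by simp [hf])).trans h
  · simp at hb
    exact absurd hb.2 hne

theorem Inv.step {M P P' s t N : ℕ} (hP : 0 < P) (hP' : P' = M * P) (hM : 0 < M)
    (hN : P' ∣ N) (hst : s ≤ t) (htN : t < N)
    (htm : ∀ t ≤ N, tm (C t) = t) (hht : ∀ t ≤ N, ht (C t) = h t)
    (hdown : ∀ t < N, h t ≤ h (t + 1) + 1) (hL : Legit h P' s t) {Φ : V → V → Res V}
    (hΦ1 : ∀ s t, s ≤ N → t ≤ N → h t < h s → Φ (C s) (C t) = .popped (C t))
    (hΦ2 : ∀ s t, s ≤ t → t < N → Legit h P s t → Right h C P s t (Φ (C s) (C t)))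
    {μ : ℕ} {c : MS V × List V} (hI : Inv h C M P P' s t (μ + 1) c) :
    Inv h C M P P' s t μ (mstep tm ht P' (C s) (C t) Φ c) := by
  have hP0' : 0 < P' := hP' ▸ Nat.mul_pos hM hP
  have hEN : blk P' t ≤ N := blk_le hP0' hN htN
  have hsN : s < N := hst.trans_lt htN
  have hPP' : P ∣ P' := hP' ▸ Dvd.intro_left _ rfl
  have hPG : ∀ u, P ∣ blk P' u := fun u => hPP'.trans (dvd_blk P' u)
  have hdivE : blk P' t / P - t / P ≤ M := by
    have e1 : blk P' t / P = (t / P' + 1) * M := by
      unfold blk
      rw [hP', ← mul_assoc, Nat.mul_div_cancel _ hP]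
    have e2 : t / P' * M ≤ t / P := by
      rw [hP', mul_comm M P, ← Nat.div_div_eq_div_mul]
      exact Nat.div_mul_le_self _ _
    rw [e1, add_mul, one_mul]
    omega
  cases hI with
  | one hτ hG hl hS hb hs hμ =>
    rename_i τ l
    have hτt : τ ≤ t := hτ.trans hG
    have hτN : τ < N := hτt.trans_lt htN
    cases l with
    | nil => simp at hl
    | cons e l =>
    have hL2 : (∀ r, s ≤ r → r ≤ t → h s ≤ h r) ∧ (∀ r, blk P' s ≤ r → r ≤ t → h t ≤ h r) := by
      rcases hL with rfl | hL
      · exact absurd (lt_blk hP0' s) (by omega)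
      · exact hL.2
    by_cases hc : blk P' s ≤ τ
    · -- jump
      have hτe : τ = blk P' s := le_antisymm hτ hc
      have hstep : mstep tm ht P' (C s) (C t) Φ (⟨false, C τ, none, .none⟩, (e :: l).map C) =
          (⟨true, C t, none, .none⟩, (e :: l).map C) := by
        simp [mstep, comb, htm s hsN.le, htm τ hτN.le, hc, Act.app]
      rw [hstep]
      have hS2 : SOK h P (h t) t (e :: l) :=
        (hS.jump hτt (fun r hr1 hr2 => hL2.2 r (hτe ▸ hr1) hr2)).mono
          (hL2.2 τ hc hτt)
      refine Inv.two (lt_blk hP0' t).le le_rfl hl hS2 ?_ hL2.1 le_rfl le_rfl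
        (fun r hr1 hr2 => by rw [le_antisymm hr2 hr1]) (Or.inl ⟨rfl, rfl⟩) (Or.inl rfl) ?_
      · rcases hb with hb | hb
        · exact Or.inl (fun f hf => (hb f hf).trans hτt)
        · rw [hb] at hl
          simp at hl
          exact absurd (lt_blk hP0' s) (by omega)
      · simp only [List.length_cons] at hμ ⊢
        omega
    · have hτG : τ < blk P' s := not_le.mp hc
      have hlt := lt_blk hP τ
      have hτ'G : blk P τ ≤ blk P' s := blk_le hP (hPG s) hτG
      have heτ : e ≤ τ := hS.1
      by_cases hcmp : h τ < h e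
      · have hstep : mstep tm ht P' (C s) (C t) Φ (⟨false, C τ, none, .none⟩, (e :: l).map C) =
            (⟨false, C τ, none, .none⟩, l.map C) := by
          simp [mstep, comb, htm s hsN.le, htm τ hτN.le, hc, Act.app, call,
            hΦ1 e τ (heτ.trans hτN.le) hτN.le hcmp]
        rw [hstep]
        have hne : l ≠ [] := by
          rintro rfl
          simp at hl
          subst hl
          exact absurd (hs τ heτ le_rfl) (by omega)
        refine Inv.one hτ hG (getLast_tail hl hne) (hS.2.2.2.2.mono hcmp.le)
          (Or.inl (bd_pop hne hb le_rfl)) hs ?_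
        simp only [List.length_cons] at hμ
        omega
      · have hcmp' : h e ≤ h τ := not_lt.mp hcmp
        have hse : h s ≤ h e := hS.last_le hl
        rcases hΦ2 e τ heτ hτN (hS.legit hcmp' hb) with ⟨r0, b1, b2, b3, b4, b5⟩ |
          ⟨s', b1, b2, b3, b4, b5, b6⟩
        · have hstep : mstep tm ht P' (C s) (C t) Φ (⟨false, C τ, none, .none⟩, (e :: l).map C) =
              (⟨false, C r0, none, .none⟩, l.map C) := by
            simp [mstep, comb, htm s hsN.le, htm τ hτN.le, hc, Act.app, call, b5]
          rw [hstep]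
          have hr0 : r0 < N := by omega
          have hhr0 : h r0 = h e := by
            have := hdown r0 hr0
            have := b4 r0 b1 le_rfl
            omega
          have hne : l ≠ [] := by
            rintro rfl
            simp at hl
            subst hl
            have := hL2.1 (r0 + 1) (by omega) (by omega)
            omega
          refine Inv.one (by omega) hG (getLast_tail hl hne) ?_
            (Or.inl (bd_pop hne hb b1)) (fun r hr1 hr2 => ?_) ?_
          · rw [hhr0]
            exact hS.2.2.2.2.advance hS.2.2.2.1 hcmp' b1 b4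
          · rcases le_total r τ with hle | hle
            · exact hs r hr1 hle
            · exact hse.trans (b4 r hle hr2)
          · have := Nat.div_le_div_right (c := P) b1
            simp only [List.length_cons] at hμ
            omega
        · have hstep : mstep tm ht P' (C s) (C t) Φ (⟨false, C τ, none, .none⟩, (e :: l).map C) =
              (⟨false, C (blk P τ), none, .none⟩, (s' :: e :: l).map C) := by
            simp [mstep, comb, htm s hsN.le, htm τ hτN.le, hc, Act.app, call, b6]
          rw [hstep]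
          refine Inv.one hτ'G hG (by rw [List.getLast?_cons_cons]; exact hl)
            (hS.push hcmp' hP b1 b2 b3 b4) (Or.inl (bd_push hP hb b2)) (fun r hr1 hr2 => ?_) ?_
          · rcases le_total r τ with hle | hle
            · exact hs r hr1 hle
            · exact hse.trans (b3 r hle hr2)
          · have h1 := blk_div hP τ
            have h2 := Nat.div_le_div_right (c := P) hτ'G
            simp only [List.length_cons] at hμ ⊢
            omega
  | two hτ ht' hl hS hb hs htβ hβ hβh hB hβE hμ =>
    rename_i τ β l best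
    have hτN : τ ≤ N := hτ.trans hEN
    cases l with
    | nil => simp at hl
    | cons e l =>
    by_cases hc : blk P' t ≤ τ
    · -- the end
      have hτe : τ = blk P' t := le_antisymm hτ hc
      have hβτ : β = τ := hβE.resolve_right (by omega)
      have hstep : mstep tm ht P' (C s) (C t) Φ (⟨true, C τ, best, .none⟩, (e :: l).map C) =
          (⟨true, C τ, best, .done (C τ) (best.getD (C τ))⟩, (e :: l).map C) := by
        simp [mstep, comb, htm t htN.le, htm τ hτN, hc, Act.app]
      rw [hstep]
      rcases hB with ⟨_, hB⟩ | ⟨σ, hσ, b1, b2, b3, b4⟩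
      · have := lt_blk hP0' t
        omega
      · refine Inv.fin (by simp) (Or.inr ⟨σ, b1, by omega, fun r hr1 hr2 => hs r (by omega)
          (by omega), fun r hr1 hr2 => b3 r hr1 (by omega), fun r hr1 hr2 => b4 r hr1 (by omega),
          ?_⟩)
        simp [hσ, hτe]
    · have hτE : τ < blk P' t := not_le.mp hc
      have hτN' : τ < N := hτE.trans_le hEN
      have hlt := lt_blk hP τ
      have hτ'E : blk P τ ≤ blk P' t := blk_le hP (hPG t) hτE
      have heτ : e ≤ τ := hS.1
      by_cases hcmp : h τ < h e
      · have hstep : mstep tm ht P' (C s) (C t) Φ (⟨true, C τ, best, .none⟩, (e :: l).map C) =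
            (⟨true, C τ, best, .none⟩, l.map C) := by
          simp [mstep, comb, htm t htN.le, htm τ hτN, hc, Act.app, call,
            hΦ1 e τ (heτ.trans hτN) hτN hcmp]
        rw [hstep]
        have hne : l ≠ [] := by
          rintro rfl
          simp at hl
          subst hl
          exact absurd (hs τ heτ le_rfl) (by omega)
        refine Inv.two hτ ht' (getLast_tail hl hne) (hS.2.2.2.2.mono hcmp.le)
          (Or.inl (bd_pop hne hb le_rfl)) hs htβ hβ hβh hB hβE ?_
        simp only [List.length_cons] at hμ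
        omega
      · have hcmp' : h e ≤ h τ := not_lt.mp hcmp
        have hse : h s ≤ h e := hS.last_le hl
        rcases hΦ2 e τ heτ hτN' (hS.legit hcmp' hb) with ⟨r0, b1, b2, b3, b4, b5⟩ |
          ⟨s', b1, b2, b3, b4, b5, b6⟩
        · have hstep : mstep tm ht P' (C s) (C t) Φ (⟨true, C τ, best, .none⟩, (e :: l).map C) =
              (⟨true, C r0, best, .none⟩, l.map C) := by
            simp [mstep, comb, htm t htN.le, htm τ hτN, hc, Act.app, call, b5]
          rw [hstep]
          have hr0 : r0 < N := by omega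
          have hhr0 : h r0 = h e := by
            have := hdown r0 hr0
            have := b4 r0 b1 le_rfl
            omega
          have hs0 : ∀ r, s ≤ r → r ≤ r0 → h s ≤ h r := by
            intro r hr1 hr2
            rcases le_total r τ with hle | hle
            · exact hs r hr1 hle
            · exact hse.trans (b4 r hle hr2)
          by_cases hne : l = []
          · subst hne
            simp at hl
            subst hl
            exact Inv.three (by omega) (by omega) b3 (fun r hr1 hr2 => hs0 r (by omega) hr2)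
              (by omega)
          · refine Inv.two (by omega) (by omega) (getLast_tail hl hne) ?_
              (Or.inl (bd_pop hne hb b1)) hs0 htβ (by omega) (fun r hr1 hr2 => ?_) hB
              (Or.inr (by omega)) ?_
            · rw [hhr0]
              exact hS.2.2.2.2.advance hS.2.2.2.1 hcmp' b1 b4
            · rcases le_total r τ with hle | hle
              · rw [hhr0]
                exact hcmp'.trans (hβh r hr1 hle)
              · rw [hhr0]
                exact b4 r hle hr2
            · have := Nat.div_le_div_right (c := P) b1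
              simp only [List.length_cons] at hμ
              omega
        · have hstep : mstep tm ht P' (C s) (C t) Φ (⟨true, C τ, best, .none⟩, (e :: l).map C) =
              (⟨true, C (blk P τ), better ht best (C s'), .none⟩, (s' :: e :: l).map C) := by
            simp [mstep, comb, htm t htN.le, htm τ hτN, hc, Act.app, call, b6]
          rw [hstep]
          refine Inv.two hτ'E (by omega) (by rw [List.getLast?_cons_cons]; exact hl)
            (hS.push hcmp' hP b1 b2 b3 b4) (Or.inl (bd_push hP hb b2)) (fun r hr1 hr2 => ?_)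
            (by omega) le_rfl (fun r hr1 hr2 => by rw [le_antisymm hr2 hr1]) ?_ (Or.inl rfl) ?_
          · rcases le_total r τ with hle | hle
            · exact hs r hr1 hle
            · exact hse.trans (b3 r hle hr2)
          · -- the best value
            have hs'τ : h s' ≤ h τ := b4 τ le_rfl hlt
            have hmid : ∀ r, β ≤ r → r < blk P τ → h s' ≤ h r := by
              intro r hr1 hr2
              rcases le_total r τ with hle | hle
              · exact hs'τ.trans (hβh r hr1 hle)
              · exact b4 r hle hr2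
            rcases hB with ⟨hB1, hB2⟩ | ⟨σ, hσ, c1, c2, c3, c4⟩
            · right
              refine ⟨s', by simp [hB1, better], by omega, b2, fun r hr1 hr2 =>
                hmid r (by omega) hr2, b5⟩
            · right
              by_cases hle : h s' ≤ h σ
              · refine ⟨s', ?_, by omega, b2, fun r hr1 hr2 => ?_, b5⟩
                · simp [hσ, better, hht s' (by omega), hht σ (by omega), hle]
                · rcases lt_or_ge r β with hrβ | hrβ
                  · exact hle.trans (c3 r hr1 hrβ)
                  · exact hmid r hrβ hr2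
              · refine ⟨σ, ?_, c1, by omega, fun r hr1 hr2 => ?_, fun r hr1 hr2 => ?_⟩
                · simp [hσ, better, hht s' (by omega), hht σ (by omega), hle]
                · rcases lt_or_ge r β with hrβ | hrβ
                  · exact c3 r hr1 hrβ
                  · exact (not_le.mp hle).le.trans (hmid r hrβ hr2)
                · rcases lt_or_ge r β with hrβ | hrβ
                  · exact c4 r hr1 hrβ
                  · exact (not_le.mp hle).trans_le (hmid r hrβ hr2)
          · have h1 := blk_div hP τ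
            have h2 := Nat.div_le_div_right (c := P) hτ'E
            simp only [List.length_cons] at hμ ⊢
            omega
  | three ht' hE hr hs hμ =>
    rename_i r0 best
    have hc : ¬ (blk P' t ≤ r0) := by omega
    have hstep : mstep tm ht P' (C s) (C t) Φ (⟨true, C r0, best, .none⟩, []) =
        (⟨true, C r0, best, .popped (C r0)⟩, []) := by
      simp [mstep, comb, htm t htN.le, htm r0 (by omega), hc, Act.app, call]
    rw [hstep]
    exact Inv.fin (by simp) (Or.inl ⟨r0, ht', hE, hr, hs, rfl⟩)
  | fin hne hR =>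
    rename_i q st
    have : mstep tm ht P' (C s) (C t) Φ (q, st) = (q, st) := by
      unfold mstep
      rw [comb_fin _ _ _ _ _ hne]
      rfl
    rw [this]
    exact Inv.fin hne hR

theorem Inv.iter {M P P' s t N : ℕ} (hP : 0 < P) (hP' : P' = M * P) (hM : 0 < M)
    (hN : P' ∣ N) (hst : s ≤ t) (htN : t < N)
    (htm : ∀ t ≤ N, tm (C t) = t) (hht : ∀ t ≤ N, ht (C t) = h t)
    (hdown : ∀ t < N, h t ≤ h (t + 1) + 1) (hL : Legit h P' s t) {Φ : V → V → Res V}
    (hΦ1 : ∀ s t, s ≤ N → t ≤ N → h t < h s → Φ (C s) (C t) = .popped (C t))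
    (hΦ2 : ∀ s t, s ≤ t → t < N → Legit h P s t → Right h C P s t (Φ (C s) (C t)))
    (μ : ℕ) {c : MS V × List V} (hI : Inv h C M P P' s t μ c) :
    Right h C P' s t ((mstep tm ht P' (C s) (C t) Φ)^[μ] c).1.fin := by
  induction μ generalizing c with
  | zero =>
    cases hI with
    | one _ _ _ _ _ _ hμ => omega
    | two _ _ _ _ _ _ _ _ _ _ _ hμ => omega
    | three _ _ _ _ hμ => omega
    | fin _ hR => exact hR
  | succ μ ih =>
    rw [Function.iterate_succ_apply]
    exact ih (hI.step hP hP' hM hN hst htN htm hht hdown hL hΦ1 hΦ2)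

/-- Correctness of the functions `Phi`. -/
theorem Phi_right {M D N : ℕ} (hM : 0 < M) (hN : N = M ^ D)
    (htm : ∀ t ≤ N, tm (C t) = t) (hht : ∀ t ≤ N, ht (C t) = h t)
    (hdown : ∀ t < N, h t ≤ h (t + 1) + 1) {Φ₀ : V → V → Res V}
    (hΦ : ∀ s t, s ≤ t → t < N → Legit h 1 s t → h s ≤ h t →
      Right h C 1 s t (Φ₀ (C s) (C t))) (d : ℕ) (hd : d ≤ D) :
    (∀ s t, s ≤ N → t ≤ N → h t < h s → Phi tm ht M Φ₀ d (C s) (C t) = .popped (C t)) ∧
    (∀ s t, s ≤ t → t < N → Legit h (M ^ d) s t →
      Right h C (M ^ d) s t (Phi tm ht M Φ₀ d (C s) (C t))) := by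
  have hle : ∀ P s t, Legit h P s t → s ≤ t → h s ≤ h t := by
    intro P s t hL hst
    rcases hL with rfl | hL
    · exact le_rfl
    · exact hL.2.1 t hst le_rfl
  induction d with
  | zero =>
    refine ⟨fun s t hs ht' hlt => ?_, fun s t hst htN hL => ?_⟩
    · simp [Phi, hht s hs, hht t ht', hlt]
    · rw [pow_zero] at hL ⊢
      have h1 := hle _ s t hL hst
      simp only [Phi, hht s (by omega), hht t (by omega), not_lt.mpr h1, if_false]
      exact hΦ s t hst htN hL h1
  | succ d ih =>
    obtain ⟨ih1, ih2⟩ := ih (by omega)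
    refine ⟨fun s t hs ht' hlt => ?_, fun s t hst htN hL => ?_⟩
    · simp [Phi, hht s hs, hht t ht', hlt]
    · have h1 := hle _ s t hL hst
      simp only [Phi, hht s (by omega), hht t (by omega), not_lt.mpr h1, if_false]
      have hP0 : 0 < M ^ d := pow_pos hM d
      have hP' : M ^ (d + 1) = M * M ^ d := by rw [pow_succ, mul_comm]
      have hP0' : 0 < M ^ (d + 1) := pow_pos hM _
      have hdvd : M ^ (d + 1) ∣ N := hN ▸ pow_dvd_pow M hd
      have hdiv : ∀ u, blk (M ^ (d + 1)) u / M ^ d - u / M ^ d ≤ M := by
        intro u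
        have e1 : blk (M ^ (d + 1)) u / M ^ d = (u / M ^ (d + 1) + 1) * M := by
          unfold blk
          rw [hP', ← mul_assoc, Nat.mul_div_cancel _ hP0]
        have e2 : u / M ^ (d + 1) * M ≤ u / M ^ d := by
          rw [hP', mul_comm M, ← Nat.div_div_eq_div_mul]
          exact Nat.div_mul_le_self _ _
        rw [e1, add_mul, one_mul]
        omega
      refine Inv.iter hP0 hP' hM hdvd hst htN htm hht hdown hL ih1 ih2 (4 * M + 4) ?_
      have hS : ∀ u, SOK h (M ^ d) (h u) u [u] := fun u =>
        ⟨le_rfl, fun r hr1 hr2 => by rw [le_antisymm hr2 hr1]; simp,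
          fun r hr1 hr2 => by
            have := lt_blk hP0 u
            omega, by simp, trivial⟩
      unfold minit
      by_cases hst' : s = t
      · subst hst'
        simp only [if_true]
        have := hdiv s
        exact Inv.two (l := [s]) (lt_blk hP0' s).le le_rfl rfl (hS s) (Or.inr rfl)
          (fun r hr1 hr2 => by rw [le_antisymm hr2 hr1]) le_rfl le_rfl
          (fun r hr1 hr2 => by rw [le_antisymm hr2 hr1]) (Or.inl ⟨rfl, rfl⟩) (Or.inl rfl)
          (by simp only [List.length_singleton]; omega)
      · have hG : blk (M ^ (d + 1)) s ≤ t := by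
          rcases hL with hL | hL
          · exact absurd hL hst'
          · exact hL.1
        rw [htm s (by omega), htm t (by omega), if_neg hst']
        have := hdiv s
        exact Inv.one (l := [s]) (lt_blk hP0' s).le hG rfl (hS s) (Or.inr rfl)
          (fun r hr1 hr2 => by rw [le_antisymm hr2 hr1])
          (by simp only [List.length_singleton]; omega)

/-- The value at the end of the run. -/
theorem Phi_final {M D N : ℕ} (hM : 0 < M) (hN : N = M ^ D)
    (htm : ∀ t ≤ N, tm (C t) = t) (hht : ∀ t ≤ N, ht (C t) = h t)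
    (hdown : ∀ t < N, h t ≤ h (t + 1) + 1) {Φ₀ : V → V → Res V} (h0 : h 0 = 0)
    (hΦ : ∀ s t, s ≤ t → t < N → Legit h 1 s t → h s ≤ h t →
      Right h C 1 s t (Φ₀ (C s) (C t))) :
    ∃ u, Phi tm ht M Φ₀ D (C 0) (C 0) = .done (C N) u := by
  have hN0 : 0 < N := hN ▸ pow_pos hM D
  have h1 := (Phi_right hM hN htm hht hdown hΦ D le_rfl).2 0 0 le_rfl hN0 (Or.inl rfl)
  have hb : blk (M ^ D) 0 = N := by simp [blk, hN]
  rcases h1 with ⟨r0, _, _, hr, _⟩ | ⟨s', _, _, _, _, _, hr⟩
  · rw [h0] at hr
    exact absurd hr (Nat.not_lt_zero _)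
  · rw [hb] at hr
    exact ⟨_, hr⟩

end Pool.Agent.Helper17.SL
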