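import Pool.Agent.Helper17.SL.Gadget
import Pool.Agent.Helper17.SL.Macro

set_option linter.unusedSimpArgs false

/-!
Sub-log-squared space for pushdown automata: masked evaluation of the macro machine.
-/

namespace Pool.Agent.Helper17.SL

/-- One cell of the tableau of the macro machine: its state, the height of the macro stack and
one entry of the macro stack. -/
abbrev Cell (V : Type) (m : ℕ) : Type := MS V × Fin (m + 1) × Option V

section cells

variable {V : Type} (tm ht : V → ℕ)

/-- The cell of a configuration. -/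
def cellOf (m : ℕ) (l : ℕ) (c : MS V × List V) : Cell V m :=
  (c.1, ⟨min c.2.length m, by omega⟩, c.2.reverse[l]?)

/-- The new cell. -/
def cellComb (P : ℕ) (g x : V) (m l : ℕ) (a : Cell V m) (r : Res V) : Cell V m :=
  match comb tm ht P g x a.1 r with
  | (q, .stay) => (q, a.2.1, a.2.2)
  | (q, .pop) => (q, ⟨a.2.1 - 1, by omega⟩, if l + 1 = a.2.1 then .none else a.2.2)
  | (q, .push u) => (q, ⟨min (a.2.1 + 1) m, by omega⟩, if l = a.2.1 then .some u else a.2.2)

/-- The index of the top entry. -/
def topIdx {m : ℕ} (a : Cell V m) : ℕ := (a.2.1 : ℕ) - 1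

theorem cell_top {m : ℕ} (c : MS V × List V) (hc : c.2.length ≤ m) (l : ℕ) :
    (cellOf m (topIdx (cellOf m l c)) c).2.2 = c.2.head? := by
  unfold topIdx cellOf
  simp only [min_eq_left hc]
  cases hst : c.2 with
  | nil => simp
  | cons u st => simp

theorem cell_step (P : ℕ) (g x : V) (Φ : V → V → Res V) {m : ℕ} (l : ℕ) (c : MS V × List V)
    (hc : c.2.length < m) :
    cellOf m l (mstep tm ht P g x Φ c) =
      cellComb tm ht P g x m l (cellOf m l c) (call Φ c.2.head? c.1.cur) := by
  obtain ⟨q, st⟩ := c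
  simp only at hc
  unfold mstep cellComb cellOf
  simp only
  cases hcomb : comb tm ht P g x q (call Φ st.head? q.cur) with
  | mk q' a =>
    cases a with
    | stay => simp [Act.app]
    | pop =>
      simp only [Act.app, min_eq_left hc.le]
      refine Prod.ext rfl (Prod.ext ?_ ?_)
      · simp only [Fin.mk.injEq]
        rw [List.length_tail, min_eq_left (by omega)]
      · simp only
        cases st with
        | nil => simp
        | cons u st =>
          simp only [List.tail_cons, List.reverse_cons, List.length_cons]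
          rcases lt_trichotomy l st.length with h | h | h
          · rw [if_neg (by omega), List.getElem?_append_left (by simpa using h)]
          · rw [if_pos (by omega), List.getElem?_eq_none (by simp; omega)]
          · rw [if_neg (by omega), List.getElem?_eq_none (by simp; omega),
              List.getElem?_eq_none (by simp; omega)]
    | push u =>
      simp only [Act.app, min_eq_left hc.le]
      refine Prod.ext rfl (Prod.ext ?_ ?_)
      · simp only [Fin.mk.injEq, List.length_cons]
      · simp only [List.reverse_cons]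
        rcases lt_trichotomy l st.length with h | h | h
        · rw [if_neg (by omega), List.getElem?_append_left (by simpa using h)]
        · subst h
          rw [if_pos rfl, List.getElem?_append_right (by simp)]
          simp
        · rw [if_neg (by omega), List.getElem?_eq_none (by simp; omega),
            List.getElem?_eq_none (by simp; omega)]

theorem mstep_length (P : ℕ) (g x : V) (Φ : V → V → Res V) (c : MS V × List V) :
    (mstep tm ht P g x Φ c).2.length ≤ c.2.length + 1 := by
  unfold mstep
  cases (comb tm ht P g x c.1 (call Φ c.2.head? c.1.cur)).2 <;> simp [Act.app]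
  omega

theorem iter_length (P : ℕ) (g x : V) (Φ : V → V → Res V) (c : MS V × List V) (i : ℕ) :
    ((mstep tm ht P g x Φ)^[i] c).2.length ≤ c.2.length + i := by
  induction i with
  | zero => simp
  | succ i ih =>
    rw [Function.iterate_succ_apply']
    have := mstep_length tm ht P g x Φ ((mstep tm ht P g x Φ)^[i] c)
    omega

end cells

section sim

variable {ι α F V : Type} [Field F] [Fintype F] [DecidableEq F] [Nonempty ι] {b m : ℕ} (tm ht : V → ℕ)

instance : Code b Unit := ⟨⟨fun _ _ => false, fun _ _ _ => rfl⟩⟩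

theorem code_card {W : Type} [Fintype W] [Code b W] : Fintype.card W ≤ 2 ^ b := by
  have := Fintype.card_le_of_embedding (Code.emb (b := b) (W := W))
  simpa using this

/-- One step of the masked evaluation. -/
theorem sim_step [Fintype (Cell V m)] [Fintype (Res V)] [DecidableEq (Cell V m)]
    [DecidableEq (Res V)] [Code b (Cell V m)] [Code b (Res V)]
    (hF : 2 * b < Fintype.card F - 1) (P : ℕ) (g x : V) {Φ : (ι → α) → V → V → Res V}
    {L A : ℕ} (hΦ : ∀ g x, CompV F b L (fun I => Φ I g x)) (c : (ι → α) → MS V × List V)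
    (hc : ∀ I, (c I).2.length < m)
    (hA : ∀ l < m, CompV F b A (fun I => cellOf m l (c I))) (hm : 0 < m) :
    ∀ l < m, CompV F b (64 * m * Fintype.card F ^ 3 * (A + (2 ^ b) ^ 2 * (L + 1)))
      (fun I => cellOf m l (mstep tm ht P g x (Φ I) (c I))) := by
  classical
  set f := Fintype.card F with hf
  set Q := 2 ^ b with hQ
  have hf1 : 1 ≤ f := by omega
  have hQ1 : 1 ≤ Q := Nat.one_le_two_pow
  have hcc : Fintype.card (Cell V m) ≤ Q := code_card (b := b)
  have hcr : Fintype.card (Res V) ≤ Q := code_card (b := b)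
  -- the cell which contains the top entry
  have hT : CompV F b (m * (f * (4 * A + 4 * Q ^ 2 + 2)))
      (fun I => cellOf m (topIdx (cellOf m 0 (c I))) (c I)) := by
    have h1 : ∀ l ∈ Finset.range m, CompB (F := F) (b := b) (f * (4 * A + 4 * Q ^ 2 + 2))
        (fun I => if topIdx (cellOf m 0 (c I)) = l then enc F (cellOf m l (c I)) else 0) := by
      intro l hl
      have := CompB.gadget (F := F) (b := b) hF (hA 0 hm) (hA l (Finset.mem_range.mp hl))
        (w := fun a e _ => if topIdx a = l then enc F e else 0)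
        (fun a e => CompB.const _)
      refine this.mono (Nat.mul_le_mul_left _ ?_)
      have h2 : Fintype.card (Cell V m) * Fintype.card (Cell V m) ≤ Q ^ 2 := by
        rw [sq]; exact Nat.mul_le_mul hcc hcc
      omega
    have h2 := CompB.sum (Finset.range m) h1
    rw [Finset.card_range] at h2
    intro j
    obtain ⟨Pr, h3, h4⟩ := h2 j
    refine ⟨Pr, h3, fun I => ?_⟩
    rw [h4]
    congr 1
    have hlt : topIdx (cellOf m 0 (c I)) < m := by
      unfold topIdx cellOf
      simp only
      omega
    beta_reduce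
    rw [Finset.sum_ite_eq]
    simp [hlt]
  have hR : CompV F b (f * (2 * (m * (f * (4 * A + 4 * Q ^ 2 + 2))) + 2 + Q * (2 * (L + 1) + 2) + 2))
      (fun I => call (Φ I) (c I).2.head? (c I).1.cur) := by
    have h1 := CompB.gadget (F := F) (b := b) hF hT (L2 := 1)
      (u2 := fun _ : ι → α => ()) (CompB.const _) (L3 := L + 1)
      (w := fun a _ I => enc F (call (Φ I) a.2.2 a.1.cur))
      (fun a _ => by
        rcases a with ⟨q, n, e⟩
        cases e with
        | none => exact (CompB.const (enc F (Res.none : Res V))).mono (by omega)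
        | some tp => exact (hΦ tp q.cur).mono (by omega))
    intro j
    obtain ⟨Pr, h3, h4⟩ := h1 j
    refine ⟨Pr, h3.trans (Nat.mul_le_mul_left _ ?_), fun I => ?_⟩
    · have h5 : Fintype.card (Cell V m) * Fintype.card Unit * (2 * (L + 1) + 2) ≤
          Q * (2 * (L + 1) + 2) := by
        rw [Fintype.card_unit, mul_one]
        exact Nat.mul_le_mul_right _ hcc
      omega
    · rw [h4]
      beta_reduce
      rw [cell_top _ (hc I).le]
      rfl
  intro l hl
  have h1 := CompB.gadget (F := F) (b := b) hF (hA l hl) hR (L3 := 1)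
    (w := fun a r _ => enc F (cellComb tm ht P g x m l a r)) (fun a r => CompB.const _)
  intro j
  obtain ⟨Pr, h3, h4⟩ := h1 j
  refine ⟨Pr, h3.trans ?_, fun I => ?_⟩
  · have h2 : Fintype.card (Cell V m) * Fintype.card (Res V) ≤ Q ^ 2 := by
      rw [sq]; exact Nat.mul_le_mul hcc hcr
    set X := A + Q ^ 2 * (L + 1) with hX
    have hXQ : Q ^ 2 * (L + 1) ≤ X := by omega
    have hXA : A ≤ X := by omega
    have hXQ2 : Q ^ 2 ≤ X := le_trans (Nat.le_mul_of_pos_right _ (by omega)) hXQ
    have hQQ : Q ≤ Q ^ 2 := by nlinarith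
    have hX1 : 1 ≤ X := le_trans (by nlinarith) hXQ2
    have a1 : 4 * A + 4 * Q ^ 2 + 2 ≤ 10 * X := by omega
    have a2 : m * (f * (4 * A + 4 * Q ^ 2 + 2)) ≤ m * (f * (10 * X)) :=
      Nat.mul_le_mul_left _ (Nat.mul_le_mul_left _ a1)
    have a3 : Q * (2 * (L + 1) + 2) ≤ 4 * X := by
      calc Q * (2 * (L + 1) + 2) ≤ Q ^ 2 * (4 * (L + 1)) := Nat.mul_le_mul hQQ (by omega)
        _ = 4 * (Q ^ 2 * (L + 1)) := by ring
        _ ≤ 4 * X := by omega
    have hmf : 1 ≤ m * f := Nat.mul_pos hm hf1
    have a4 : f * (2 * (m * (f * (4 * A + 4 * Q ^ 2 + 2))) + 2 + Q * (2 * (L + 1) + 2) + 2) ≤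
        f * (28 * (m * f * X)) := by
      apply Nat.mul_le_mul_left
      have b1 : m * (f * (10 * X)) = 10 * (m * f * X) := by ring
      have b2 : X ≤ m * f * X := Nat.le_mul_of_pos_left _ hmf
      omega
    have hmff : 1 ≤ m * f ^ 2 := Nat.mul_pos hm (pow_pos hf1 2)
    have b3 : f * (28 * (m * f * X)) = 28 * (m * f ^ 2 * X) := by ring
    have b4 : X ≤ m * f ^ 2 * X := Nat.le_mul_of_pos_left _ hmff
    calc _ ≤ f * (64 * (m * f ^ 2 * X)) := by
          apply Nat.mul_le_mul_left
          omega
      _ = 64 * m * f ^ 3 * X := by ring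
  · rw [h4]
    beta_reduce
    rw [cell_step tm ht P g x (Φ I) l (c I) (hc I)]

/-- Masked evaluation of the macro machine. -/
theorem sim_iter [Fintype (Cell V m)] [Fintype (Res V)] [DecidableEq (Cell V m)]
    [DecidableEq (Res V)] [Code b (Cell V m)] [Code b (Res V)]
    (hF : 2 * b < Fintype.card F - 1) (P : ℕ) (g x : V) {Φ : (ι → α) → V → V → Res V}
    {L : ℕ} (hΦ : ∀ g x, CompV F b L (fun I => Φ I g x)) (c0 : MS V × List V)
    (hc : c0.2.length ≤ 1) (i : ℕ) (hm : i + 1 ≤ m) (hm0 : 0 < m) :
    ∀ l < m, CompV F b ((128 * m * Fintype.card F ^ 3) ^ i * (1 + (2 ^ b) ^ 2 * (L + 1)))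
      (fun I => cellOf m l ((mstep tm ht P g x (Φ I))^[i] c0)) := by
  induction i with
  | zero =>
    intro l _
    simp only [pow_zero, one_mul, Function.iterate_zero, id_eq]
    exact (CompB.const (enc F (cellOf m l c0))).mono (by omega)
  | succ i ih =>
    intro l hl
    have h1 := sim_step tm ht hF P g x hΦ (fun I => (mstep tm ht P g x (Φ I))^[i] c0)
      (fun I => by
        have := iter_length tm ht P g x (Φ I) c0 i
        omega) (ih (by omega)) hm0 l hl
    simp only [Function.iterate_succ_apply']
    refine CompB.mono h1 ?_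
    set f := Fintype.card F with hf
    set W := (2 ^ b) ^ 2 * (L + 1) with hW
    set K := 128 * m * f ^ 3 with hK
    have hf1 : 1 ≤ f := by omega
    have hK1 : 1 ≤ K := by
      have : 1 ≤ m * f ^ 3 := Nat.mul_pos hm0 (pow_pos hf1 3)
      have e : K = 128 * (m * f ^ 3) := by rw [hK]; ring
      omega
    have hKi : 1 ≤ K ^ i := Nat.one_le_pow _ _ hK1
    have h2 : W ≤ K ^ i * (1 + W) := by nlinarith
    calc 64 * m * f ^ 3 * (K ^ i * (1 + W) + W) ≤ 64 * m * f ^ 3 * (2 * (K ^ i * (1 + W))) :=
          Nat.mul_le_mul_left _ (by omega)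
      _ = K ^ (i + 1) * (1 + W) := by rw [pow_succ, hK]; ring

/-- The length of the programs for `Phi`. -/
theorem sim_Phi {M : ℕ} (hm : m = 4 * M + 6) [Fintype (Cell V m)] [Fintype (Res V)]
    [DecidableEq (Cell V m)] [DecidableEq (Res V)] [Code b (Cell V m)] [Code b (Res V)]
    (hF : 2 * b < Fintype.card F - 1) {Φ₀ : (ι → α) → V → V → Res V}
    {L : ℕ} (hΦ : ∀ g x, CompV F b L (fun I => Φ₀ I g x)) (d : ℕ) :
    ∀ g x, CompV F b (((128 * m * Fintype.card F ^ 3) ^ m * (2 ^ b) ^ 2) ^ d * (L + 1))
      (fun I => Phi tm ht M (Φ₀ I) d g x) := by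
  classical
  set f := Fintype.card F with hf
  set K := 128 * m * f ^ 3 with hK
  set Q := 2 ^ b with hQ
  have hf1 : 1 ≤ f := by omega
  have hQ1 : 1 ≤ Q := Nat.one_le_two_pow
  have hm0 : 0 < m := by omega
  have hK128 : 128 ≤ K := by
    have : 1 ≤ m * f ^ 3 := Nat.mul_pos hm0 (pow_pos hf1 3)
    have e : K = 128 * (m * f ^ 3) := by rw [hK]; ring
    omega
  have hKf : 128 * f ≤ K := by
    have h1 : f ≤ m * f ^ 3 := by
      calc f = 1 * f ^ 1 := by ring
        _ ≤ m * f ^ 3 := Nat.mul_le_mul hm0 (Nat.pow_le_pow_right hf1 (by omega))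
    have e : K = 128 * (m * f ^ 3) := by rw [hK]; ring
    omega
  induction d with
  | zero =>
    intro g x
    simp only [pow_zero, one_mul, Phi]
    split_ifs
    · exact (CompB.const (enc F (Res.popped x))).mono (by omega)
    · exact (hΦ g x).mono (by omega)
  | succ d ih =>
    intro g x
    set A := (K ^ m * Q ^ 2) ^ d * (L + 1) with hA
    have hbig : 1 ≤ (K ^ m * Q ^ 2) ^ (d + 1) * (L + 1) :=
      Nat.mul_pos (pow_pos (Nat.mul_pos (pow_pos (by omega) _) (pow_pos (by omega) _)) _) (by omega)
    simp only [Phi]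
    by_cases hgx : ht x < ht g
    · simp only [hgx, if_true]
      exact (CompB.const (enc F (Res.popped x))).mono hbig
    · simp only [hgx, if_false]
      have h1 := sim_iter (m := m) tm ht hF (M ^ (d + 1)) g x (Φ := fun I => Phi tm ht M (Φ₀ I) d)
        (L := A) ih (minit tm g x, [g]) (by simp) (4 * M + 4) (by omega) hm0
      have h2 := CompB.gadget (F := F) (b := b) hF (h1 0 hm0) (L2 := 1)
        (u2 := fun _ : ι → α => ()) (CompB.const _) (L3 := 1)
        (w := fun a _ _ => enc F a.1.fin) (fun a _ => CompB.const _)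
      refine CompB.mono h2 ?_
      have hcc : Fintype.card (Cell V m) ≤ Q := code_card (b := b)
      set B := K ^ (4 * M + 4) * (1 + Q ^ 2 * (A + 1)) with hB
      have hQB : Q ≤ B := by
        have h3 : 1 ≤ K ^ (4 * M + 4) := Nat.one_le_pow _ _ (by omega)
        have h4 : Q ≤ Q ^ 2 := by nlinarith
        have h5 : Q ^ 2 ≤ Q ^ 2 * (A + 1) := Nat.le_mul_of_pos_right _ (by omega)
        have h6 : 1 + Q ^ 2 * (A + 1) ≤ B := Nat.le_mul_of_pos_left _ h3
        omega
      have hAA : 1 ≤ A := Nat.mul_pos (pow_pos (Nat.mul_pos (pow_pos (by omega) _)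
        (pow_pos (by omega) _)) _) (by omega)
      calc _ ≤ f * (10 * B) := by
            apply Nat.mul_le_mul_left
            rw [Fintype.card_unit, mul_one]
            omega
        _ ≤ K * B := by nlinarith
        _ ≤ K * (K ^ (4 * M + 4) * (3 * (Q ^ 2 * A))) := by
            apply Nat.mul_le_mul_left
            apply Nat.mul_le_mul_left
            have h7 : 1 ≤ Q ^ 2 := Nat.one_le_pow _ _ hQ1
            have h8 : Q ^ 2 ≤ Q ^ 2 * A := Nat.le_mul_of_pos_right _ hAA
            have h9 : Q ^ 2 * (A + 1) = Q ^ 2 * A + Q ^ 2 := by ring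
            omega
        _ ≤ K * (K ^ (4 * M + 4) * (K * (Q ^ 2 * A))) := by
            apply Nat.mul_le_mul_left
            apply Nat.mul_le_mul_left
            apply Nat.mul_le_mul_right
            omega
        _ = (K ^ m * Q ^ 2) ^ (d + 1) * (L + 1) := by
            rw [hA, hm, pow_succ (K ^ (4 * M + 6) * Q ^ 2) d]
            ring

end sim

end Pool.Agent.Helper17.SL
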