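import Pool.Agent.Helper17.SL.Convert
import Pool.Agent.Helper17.SL.Machine
import Pool.Agent.Helper17.SL.Sim

/-!
Sub-log-squared space for pushdown automata: assembly.
-/

namespace Pool.Agent.Helper17.SL

set_option linter.style.haveILetI false
set_option warn.classDefReducibility false

/-! ### finiteness and cardinalities -/

def resEquiv (V : Type) : Res V ≃ Option (V ⊕ V × V) where
  toFun
    | .none => none
    | .popped x => some (Sum.inl x)
    | .done z u => some (Sum.inr (z, u))
  invFun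
    | none => .none
    | some (Sum.inl x) => .popped x
    | some (Sum.inr (z, u)) => .done z u
  left_inv r := by cases r <;> rfl
  right_inv r := by rcases r with _ | (x | ⟨z, u⟩) <;> rfl

def msEquiv (V : Type) : MS V ≃ Bool × V × Option V × Res V where
  toFun q := (q.ph, q.cur, q.best, q.fin)
  invFun q := ⟨q.1, q.2.1, q.2.2.1, q.2.2.2⟩
  left_inv _ := rfl
  right_inv _ := rfl

instance {V : Type} [Fintype V] [DecidableEq V] : Fintype (Res V) :=
  Fintype.ofEquiv _ (resEquiv V).symm

instance {V : Type} [Fintype V] [DecidableEq V] : Fintype (MS V) :=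
  Fintype.ofEquiv _ (msEquiv V).symm

theorem card_res (V : Type) [Fintype V] [DecidableEq V] :
    Fintype.card (Res V) = Fintype.card V + Fintype.card V * Fintype.card V + 1 := by
  rw [Fintype.card_congr (resEquiv V), Fintype.card_option, Fintype.card_sum, Fintype.card_prod]

theorem card_cell (V : Type) [Fintype V] [DecidableEq V] (m : ℕ) :
    Fintype.card (Cell V m) = 2 * (Fintype.card V * ((Fintype.card V + 1) *
      (Fintype.card V + Fintype.card V * Fintype.card V + 1))) * ((m + 1) *
        (Fintype.card V + 1)) := by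
  rw [Fintype.card_prod, Fintype.card_congr (msEquiv V)]
  simp only [Fintype.card_prod, Fintype.card_option, Fintype.card_bool, Fintype.card_fin,
    card_res]

noncomputable def codeOf {b : ℕ} {W : Type} [Fintype W] (h : Fintype.card W ≤ 2 ^ b) :
    Code b W :=
  ⟨Classical.choice (Function.Embedding.nonempty_of_card_le (by simpa using h))⟩

theorem enc_inj {F : Type} [Field F] {b : ℕ} {W : Type} [Code b W] {u v : W}
    (h : (enc F u : Blk F b) = enc F v) : u = v := by
  apply (Code.emb (b := b)).injective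
  funext i
  have h1 := congrFun h i
  unfold enc at h1
  cases h2 : Code.emb (b := b) u i <;> cases h3 : Code.emb (b := b) v i <;> simp_all

/-- The values of the run. -/
abbrev VT (Q Γ : Type) (k n T R N : ℕ) : Type := Val N (Ctl Q Γ k n T R) Γ

/-- The branching program, given the parameters. -/
theorem exists_bp {α Q Γ : Type} {k : ℕ} [Fintype α] [Fintype Q] [Fintype Γ]
    (δ : PDTrans α Q Γ k) (q₀ : Q) (F : Set Q) {R : ℕ}
    (hR : ∀ q v X, (δ q v X).2.2.length ≤ R) {n T M D b f : ℕ} (hn : 0 < n) (hM : 0 < M)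
    (hN : T * (R + 1) ≤ M ^ D) (hf : f.Prime) (hfb : 2 * b < f - 1)
    [Fintype (VT Q Γ k n T R (M ^ D))] [DecidableEq (VT Q Γ k n T R (M ^ D))]
    (hcell : Fintype.card (Cell (VT Q Γ k n T R (M ^ D)) (4 * M + 6)) ≤ 2 ^ b)
    (hres : Fintype.card (Res (VT Q Γ k n T R (M ^ D))) ≤ 2 ^ b) :
    ∃ S ≤ ((((128 * (4 * M + 6) * f ^ 3) ^ (4 * M + 6) * (2 ^ b) ^ 2) ^ D *
        ((4 * Fintype.card α + 1) ^ k + 1) + 1) * (f ^ b) ^ 4), ∃ B : BP α n S,
      ∀ I : Fin n → α, (AcceptsIn δ q₀ F T (List.ofFn I) → B.Outputs I true) ∧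
        (¬ AcceptsIn δ q₀ F T (List.ofFn I) → B.Outputs I false) := by
  classical
  haveI : Fact f.Prime := ⟨hf⟩
  haveI : Nonempty (Fin n) := ⟨⟨0, hn⟩⟩
  letI : Code b (Cell (VT Q Γ k n T R (M ^ D)) (4 * M + 6)) := codeOf hcell
  letI : Code b (Res (VT Q Γ k n T R (M ^ D))) := codeOf hres
  let Fb : Q → Bool := fun q => decide (q ∈ F)
  let c0 : Ctl Q Γ k n T R × List Γ := ((clamp T 0, q₀, fun _ => ⟨0, by omega⟩,
    ⟨[], Nat.zero_le _⟩), [])
  let Φ : (Fin n → α) → VT Q Γ k n T R (M ^ D) → VT Q Γ k n T R (M ^ D) →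
      Res (VT Q Γ k n T R (M ^ D)) := fun I =>
    phi0 (N := M ^ D) (wstp (n := n) (T := T) (R := R) δ Fb (List.ofFn I))
  have hΦ : ∀ g x, CompV (ZMod f) b ((4 * Fintype.card α + 1) ^ k) (fun I => Φ I g x) := by
    intro g x
    exact compB_view (F := ZMod f) (b := b) (n := n) k (fun j => (x.2.2.1.2.2.1 j : ℕ) - 1)
      (fun v => enc (ZMod f) (phi0 (N := M ^ D) (fun s X => mstp (n := n) (T := T) (R := R)
        δ Fb s X v) g x))
  have hsim := sim_Phi (F := ZMod f) (b := b) (m := 4 * M + 6) vtm vht rfl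
    (by rw [ZMod.card]; exact hfb) hΦ D (valOf (M ^ D) 0 c0) (valOf (M ^ D) 0 c0)
  rw [ZMod.card] at hsim
  obtain ⟨P, hP1, hP2⟩ := hsim 0
  let out : Reg (ZMod f) b → Bool := fun r =>
    decide (∃ z u : VT Q Γ k n T R (M ^ D), r 0 = enc (ZMod f) (Res.done z u) ∧ z.2.2.1.2.1 ∈ F)
  obtain ⟨B, hB⟩ := exists_BP P 0 out
  refine ⟨_, ?_, B, fun I => ?_⟩
  · apply Nat.mul_le_mul
    · omega
    · simp [ZMod.card]
  · obtain ⟨u, hu⟩ := phi_run (wstp (n := n) (T := T) (R := R) δ Fb (List.ofFn I)) c0
      (M := M) (D := D) (N := M ^ D) hM rfl rfl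
    have hans := wstp_answer (n := n) (T := T) (R := R) δ Fb (List.ofFn I) (by simp) hR q₀ hN
    have hval : ev I P 0 0 = enc (ZMod f) (Res.done (valOf (M ^ D) (M ^ D)
        (crun (wstp (n := n) (T := T) (R := R) δ Fb (List.ofFn I)) c0 (M ^ D))) u) := by
      rw [hP2]
      have : Phi vtm vht M (Φ I) D (valOf (M ^ D) 0 c0) (valOf (M ^ D) 0 c0) = _ := hu
      simp only [this]
      simp [addB]
    have hout : out (ev I P 0) = true ↔ AcceptsIn δ q₀ F T (List.ofFn I) := by
      have hF : {q | Fb q = true} = F := by ext q; simp [Fb]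
      rw [hF] at hans
      rw [← hans]
      simp only [out, decide_eq_true_eq, Fb]
      constructor
      · rintro ⟨z, u', h1, h2⟩
        rw [hval] at h1
        have h3 := enc_inj h1
        simp only [Res.done.injEq] at h3
        rw [← h3.1] at h2
        exact h2
      · intro h
        exact ⟨_, _, hval, h⟩
    have h1 := hB I
    refine ⟨fun h => ?_, fun h => ?_⟩
    · rw [hout.mpr h] at h1
      exact h1
    · have : out (ev I P 0) = false := by
        rw [Bool.eq_false_iff]
        exact fun h' => h (hout.mp h')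
      rw [this] at h1
      exact h1

end Pool.Agent.Helper17.SL
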