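import Mathlib

/-!
Sub-log-squared space for pushdown automata: programs over masked registers.
-/

namespace Pool.Agent.Helper17.SL

/-- A block of registers: `b` field elements. -/
abbrev Blk (F : Type) (b : ℕ) : Type := Fin b → F

/-- The registers: four blocks. -/
abbrev Reg (F : Type) (b : ℕ) : Type := Fin 4 → Blk F b

/-- Effect of a straight-line program: each instruction queries a variable and applies a
permutation which depends on the answer. -/
def ev {ι α R : Type} (I : ι → α) : List (ι × (α → Equiv.Perm R)) → Equiv.Perm R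
  | [] => 1
  | x :: P => ev I P * x.2 (I x.1)

section

variable {ι α F : Type} [Field F] {b : ℕ}

/-- Add `v` to the block `j`. -/
def addB (j : Fin 4) (v : Blk F b) : Equiv.Perm (Reg F b) where
  toFun r := Function.update r j (r j + v)
  invFun r := Function.update r j (r j - v)
  left_inv r := by simp
  right_inv r := by simp

/-- `v` can be added to each of the four blocks (the others being restored) by a program with at
most `L` instructions. -/
def CompB (L : ℕ) (v : (ι → α) → Blk F b) : Prop :=
  ∀ j : Fin 4, ∃ P : List (ι × (α → Equiv.Perm (Reg F b))), P.length ≤ L ∧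
    ∀ I : ι → α, ev I P = addB j (v I)

/-- A code of the elements of `W` by `b` bits. -/
class Code (b : ℕ) (W : Type) where
  emb : W ↪ (Fin b → Bool)

/-- The element `w` as a block. -/
def enc (F : Type) [Field F] {b : ℕ} {W : Type} [Code b W] (w : W) : Blk F b :=
  fun i => if Code.emb (b := b) w i then 1 else 0

/-- The same for functions with values in a coded type. -/
def CompV (F : Type) [Field F] (b : ℕ) {W : Type} [Code b W] (L : ℕ) (v : (ι → α) → W) : Prop :=
  CompB (F := F) (b := b) L (fun I => enc F (v I))

end

/-! ### Statements of the pieces -/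

section pieces

variable {ι α F : Type} [Field F] {b : ℕ}

theorem CompB.mono {L L' : ℕ} {v : (ι → α) → Blk F b} (h : CompB L v) (hL : L ≤ L') :
    CompB L' v := fun j => by
  obtain ⟨P, h1, h2⟩ := h j
  exact ⟨P, h1.trans hL, h2⟩

theorem ev_append {R : Type} (I : ι → α) (P Q : List (ι × (α → Equiv.Perm R))) :
    ev I (P ++ Q) = ev I Q * ev I P := by
  induction P with
  | nil => simp [ev]
  | cons x P ih => simp [ev, ih, mul_assoc]

/-- The inverse program. -/
def inv' {R : Type} (P : List (ι × (α → Equiv.Perm R))) : List (ι × (α → Equiv.Perm R)) :=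
  (P.map fun x => (x.1, fun a => (x.2 a)⁻¹)).reverse

theorem ev_inv' {R : Type} (I : ι → α) (P : List (ι × (α → Equiv.Perm R))) :
    ev I (inv' P) = (ev I P)⁻¹ := by
  induction P with
  | nil => simp [ev, inv']
  | cons x P ih =>
    have h : inv' (x :: P) = inv' P ++ [(x.1, fun a => (x.2 a)⁻¹)] := by simp [inv']
    rw [h, ev_append, ih]
    simp [ev]

theorem length_inv' {R : Type} (P : List (ι × (α → Equiv.Perm R))) :
    (inv' P).length = P.length := by simp [inv']

theorem addB_add (j : Fin 4) (u v : Blk F b) : addB j v * addB j u = addB j (u + v) := by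
  ext r i x
  simp only [addB, Equiv.Perm.coe_mul, Function.comp_apply, Equiv.coe_fn_mk]
  by_cases hi : i = j
  · subst hi; simp [add_assoc]
  · simp [hi]

theorem addB_zero (j : Fin 4) : addB j (0 : Blk F b) = 1 := by
  ext r i x
  simp [addB]

theorem addB_inv (j : Fin 4) (v : Blk F b) : (addB j v)⁻¹ = addB j (-v) := by
  rw [inv_eq_iff_mul_eq_one, addB_add]
  simp [addB_zero]

theorem CompB.const [Nonempty ι] (v : Blk F b) : CompB 1 (fun _ : ι → α => v) := fun j =>
  ⟨[(Classical.arbitrary ι, fun _ => addB j v)], le_rfl, fun I => by simp [ev]⟩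

theorem CompB.zero : CompB 0 (fun _ : ι → α => (0 : Blk F b)) := fun j =>
  ⟨[], le_rfl, fun I => by simp [ev, addB_zero]⟩

theorem CompB.add {L L' : ℕ} {u v : (ι → α) → Blk F b} (h : CompB L u) (h' : CompB L' v) :
    CompB (L + L') (fun I => u I + v I) := fun j => by
  obtain ⟨P, h1, h2⟩ := h j
  obtain ⟨Q, h3, h4⟩ := h' j
  refine ⟨P ++ Q, by simp; omega, fun I => ?_⟩
  rw [ev_append, h2, h4, addB_add]

theorem CompB.sum {L : ℕ} {κ : Type} (s : Finset κ) {v : κ → (ι → α) → Blk F b}
    (h : ∀ k ∈ s, CompB L (v k)) : CompB (s.card * L) (fun I => ∑ k ∈ s, v k I) := by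
  classical
  induction s using Finset.induction_on with
  | empty => simpa using CompB.zero
  | insert k s hk ih =>
    have h1 := h k (by simp)
    have h2 := ih (fun k' hk' => h k' (by simp [hk']))
    have h3 := h1.add h2
    simp only [Finset.sum_insert hk, Finset.card_insert_of_notMem hk]
    refine h3.mono ?_
    rw [add_mul, one_mul, add_comm]

end pieces

end Pool.Agent.Helper17.SL
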